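import Pool.Agent.Y24.F2
import Pool.Agent.Y745.LD.DefsB
import Pool.Agent.H370R2.DirGood
import Pool.Agent.H370R2.PC1

set_option autoImplicit false

/-! Almost all heights are far from the zeros which are not near the critical line. -/

namespace Pool.Agent.J6H67.LX

open Filter Topology MeasureTheory Complex H370 Pool.Agent.Y745.SW Pool.Agent.Y745.LD
open scoped ComplexConjugate

noncomputable section

lemma zeros_countable : riemannZetaZeros.Countable := by
  have h2 : riemannZetaZeros = ⋃ m : ℕ, (Metric.closedBall (0:ℂ) m ∩ riemannZetaZeros) := by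
    ext x
    simp only [Set.mem_iUnion, Set.mem_inter_iff, Metric.mem_closedBall, dist_zero_right]
    constructor
    · intro hx
      obtain ⟨m, hm⟩ := exists_nat_ge ‖x‖
      exact ⟨m, hm, hx⟩
    · rintro ⟨m, -, hx⟩
      exact hx
  rw [h2]
  exact Set.countable_iUnion fun m => ((isCompact_closedBall (0:ℂ) m).inter_riemannZetaZeros_finite).countable

/-- the zeros in the strip at distance more than `η` from the line -/
def farZ (η : ℝ) : Set ℂ := {s : ℂ | riemannZeta s = 0 ∧ 0 < s.re ∧ s.re < 1 ∧ η < |s.re - 1 / 2|}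

lemma farZ_countable (η : ℝ) : (farZ η).Countable := by
  refine zeros_countable.mono fun s hs => ?_
  have h1 : s ≠ 1 := by
    rintro rfl
    exact absurd hs.2.2.1 (by simp)
  exact hs.1

lemma G1_compl (r D T : ℝ) : (G1 r D T)ᶜ = ⋃ s ∈ farZ (D * LL T / Real.log T),
    Set.Icc (s.im - r * Real.log T) (s.im + r * Real.log T) := by
  ext t
  simp only [Set.mem_compl_iff, G1, Set.mem_ofPred_eq, Set.mem_iUnion, exists_prop, farZ, Set.mem_Icc]
  constructor
  · intro h
    push Not at h
    obtain ⟨s, h1, h2, h3, h4, h5⟩ := h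
    rw [abs_le] at h4
    exact ⟨s, ⟨h1, h2, h3, h5⟩, by linarith [h4.2], by linarith [h4.1]⟩
  · rintro ⟨s, ⟨h1, h2, h3, h5⟩, h6, h7⟩ h
    have h8 := h s h1 h2 h3 (by rw [abs_le]; constructor <;> linarith)
    linarith

lemma G1_meas (r D T : ℝ) : MeasurableSet (G1 r D T) := by
  rw [← compl_compl (G1 r D T), G1_compl]
  exact (MeasurableSet.biUnion (farZ_countable _) fun s _ => measurableSet_Icc).compl

lemma refl_zero {s : ℂ} (h0 : riemannZeta s = 0) (h1 : 0 < s.re) (h2 : s.re < 1) (h3 : 1 ≤ s.im) :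
    riemannZeta (1 - conj s) = 0 := by
  have h : s ∈ zset riemannZeta (s.im - 1 / 2) s.im := ⟨h1, h2, by linarith, le_rfl, h0⟩
  by_contra hne
  have h6 := good_zeta.symm s h1 h2 h3
  have hb : AnalyticAt ℂ riemannZeta (1 - conj s) := good_zeta.an _ (by simp; linarith)
  have ha : AnalyticAt ℂ riemannZeta s := good_zeta.an _ (by linarith)
  rw [hb.analyticOrderAt_eq_zero.mpr hne] at h6
  exact (ha.analyticOrderAt_eq_zero.mp h6.symm) h0

/-- **almost all heights are far from the zeros which are not near the critical line** -/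
theorem t_G1M : P_G1M := by
  classical
  intro r A' hr hA'
  obtain ⟨C, hC, hd⟩ := Pool.Agent.Y24.density (c := 1) (by norm_num)
  refine ⟨A' + 3, by positivity, fun D hD => ?_⟩
  have hD0 : 0 < D := by linarith
  have hLLo := Real.isLittleO_log_id_atTop
  have hlog := Real.tendsto_log_atTop
  have e1 : ∀ᶠ T : ℝ in atTop, D * LL T / Real.log T ≤ 1 / 2 := by
    have h1 : Tendsto (fun x : ℝ => D * Real.log x / x) atTop (𝓝 0) := by
      have := Real.isLittleO_log_id_atTop.tendsto_div_nhds_zero.const_mul D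
      simp only [mul_zero, id] at this
      refine this.congr fun x => ?_
      ring
    have h2 := (h1.comp hlog).eventually_le_const (show (0:ℝ) < 1 / 2 by norm_num)
    filter_upwards [h2] with T hT
    exact hT
  have e2 : ∀ᶠ T : ℝ in atTop, r * Real.log T + 2 ≤ T := by
    have h1 : Tendsto (fun x : ℝ => r * Real.log x / x) atTop (𝓝 0) := by
      have := Real.isLittleO_log_id_atTop.tendsto_div_nhds_zero.const_mul r
      simp only [mul_zero, id] at this
      refine this.congr fun x => ?_
      ring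
    filter_upwards [h1.eventually_le_const (show (0:ℝ) < 1 / 2 by norm_num), eventually_ge_atTop 4] with T hT h4
    rw [div_le_iff₀ (by linarith)] at hT
    linarith
  filter_upwards [e1, e2, hlog.eventually_ge_atTop (48 * r * C + 2), eventually_ge_atTop 4,
    hlog.eventually_ge_atTop (Real.exp 1)] with T h1 h2 h3 hT4 hLe
  refine ⟨G1_meas r D T, ?_⟩
  set L := Real.log T with hL
  have hT0 : 0 < T := by linarith
  have hL0 : 0 < L := (Real.exp_pos 1).trans_le hLe
  have hL1 : 1 ≤ L := by linarith [Real.add_one_le_exp (1:ℝ)]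
  set η := D * LL T / L with hη
  have hLL : 0 < LL T := by
    unfold LL
    have : Real.log (Real.exp 1) ≤ Real.log L := Real.log_le_log (Real.exp_pos 1) hLe
    rw [Real.log_exp] at this
    linarith
  have hη0 : 0 < η := by positivity
  set S := (Pool.Agent.Y24.ZZ_fin (1 / 2 + η) (3 * T)).toFinset with hS
  have hSm : ∀ s, s ∈ S ↔ riemannZeta s = 0 ∧ 1 / 2 + η ≤ s.re ∧ 0 < s.im ∧ s.im ≤ 3 * T := fun s => by
    rw [hS, Set.Finite.mem_toFinset]; rfl
  set F := S ∪ S.image (fun s => 1 - conj s) with hF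
  have hsub : Set.Icc T (2 * T) \ G1 r D T ⊆ ⋃ s ∈ F, Set.Icc (s.im - r * L) (s.im + r * L) := by
    rintro t ⟨ht, htG⟩
    have h4 : t ∈ (G1 r D T)ᶜ := htG
    rw [G1_compl, Set.mem_iUnion₂] at h4
    obtain ⟨s, ⟨z1, z2, z3, z4⟩, z5, z6⟩ := h4
    rw [Set.mem_iUnion₂]
    refine ⟨s, ?_, z5, z6⟩
    have i1 : 1 ≤ s.im := by linarith [ht.1]
    have i2 : s.im ≤ 3 * T := by linarith [ht.2]
    rw [hF, Finset.mem_union]
    rcases le_or_gt 0 (s.re - 1 / 2) with h5 | h5
    · left
      rw [abs_of_nonneg h5] at z4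
      exact (hSm s).2 ⟨z1, by linarith, by linarith, i2⟩
    · right
      rw [abs_of_neg h5] at z4
      rw [Finset.mem_image]
      refine ⟨1 - conj s, (hSm _).2 ⟨refl_zero z1 z2 z3 i1, ?_, ?_, ?_⟩, ?_⟩
      · simp only [Complex.sub_re, Complex.one_re, Complex.conj_re]; linarith
      · simp only [Complex.sub_im, Complex.one_im, Complex.conj_im]; linarith
      · simp only [Complex.sub_im, Complex.one_im, Complex.conj_im]; linarith
      · simp
  have hcard : (F.card : ℝ) ≤ 2 * (C * (3 * T) ^ (1 - 1 * (1 / 2 + η - 1 / 2)) * Real.log (3 * T)) := by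
    have h5 := (hd (1 / 2 + η) (3 * T) (by linarith) (by linarith) (by linarith)).2
    have h6 : (S.card : ℝ) ≤ ∑ᶠ ρ ∈ Pool.Agent.Y24.ZZ (1 / 2 + η) (3 * T),
        (analyticOrderNatAt riemannZeta ρ : ℝ) := by
      rw [finsum_mem_eq_finite_toFinset_sum _ (Pool.Agent.Y24.ZZ_fin (1 / 2 + η) (3 * T)), ← hS,
        Finset.card_eq_sum_ones, Nat.cast_sum]
      refine Finset.sum_le_sum fun s hs => ?_
      have h7 := (hSm s).1 hs
      have h8 := Loc.mult_pos' good_zeta h7.2.2.1 h7.1
      exact_mod_cast h8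
    have h7 : F.card ≤ S.card + S.card :=
      (Finset.card_union_le _ _).trans (Nat.add_le_add_left Finset.card_image_le _)
    have h8 : (F.card : ℝ) ≤ S.card + S.card := by exact_mod_cast h7
    linarith
  have hvol : volume.real (Set.Icc T (2 * T) \ G1 r D T) ≤ F.card * (2 * (r * L)) := by
    have h5 : volume.real (⋃ s ∈ F, Set.Icc (s.im - r * L) (s.im + r * L)) ≤
        ∑ s ∈ F, volume.real (Set.Icc (s.im - r * L) (s.im + r * L)) :=
      measureReal_biUnion_finset_le F _
    have h6 : ∀ s ∈ F, volume.real (Set.Icc (s.im - r * L) (s.im + r * L)) = 2 * (r * L) := fun s _ => by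
      rw [Real.volume_real_Icc_of_le (by nlinarith)]
      ring
    rw [Finset.sum_congr rfl h6, Finset.sum_const, nsmul_eq_mul] at h5
    refine le_trans (measureReal_mono hsub ?_) h5
    refine ((measure_biUnion_finset_le F _).trans_lt ?_).ne
    exact ENNReal.sum_lt_top.2 fun s _ => by simp
  have hlog3 : Real.log (3 * T) ≤ 2 * L := by
    rw [Real.log_mul (by norm_num) hT0.ne']
    have : Real.log 3 ≤ Real.log T := Real.log_le_log (by norm_num) (by linarith)
    rw [← hL] at this ⊢
    linarith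
  have hpow : (3 * T) ^ (1 - 1 * (1 / 2 + η - 1 / 2)) ≤ 3 * T * L ^ (-D) := by
    rw [show 1 - 1 * (1 / 2 + η - 1 / 2) = 1 + (-η) by ring, Real.rpow_add (by positivity), Real.rpow_one]
    refine mul_le_mul_of_nonneg_left ?_ (by positivity)
    have h5 : (3 * T) ^ (-η) ≤ T ^ (-η) := by
      rw [Real.rpow_neg (by positivity), Real.rpow_neg hT0.le]
      refine inv_anti₀ (by positivity) (Real.rpow_le_rpow hT0.le (by linarith) hη0.le)
    refine h5.trans (le_of_eq ?_)
    rw [Real.rpow_def_of_pos hT0, Real.rpow_def_of_pos hL0, ← hL]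
    congr 1
    have : LL T = Real.log L := rfl
    rw [hη, this]
    field_simp
  calc volume.real (Set.Icc T (2 * T) \ G1 r D T) ≤ F.card * (2 * (r * L)) := hvol
    _ ≤ (2 * (C * (3 * T * L ^ (-D)) * (2 * L))) * (2 * (r * L)) := by
        refine mul_le_mul_of_nonneg_right (hcard.trans ?_) (by positivity)
        refine mul_le_mul_of_nonneg_left ?_ (by norm_num)
        have hlogn : 0 ≤ Real.log (3 * T) := Real.log_nonneg (by linarith)
        exact mul_le_mul (mul_le_mul_of_nonneg_left hpow hC.le) hlog3 hlogn (by positivity)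
    _ = T * (24 * r * C) * (L ^ (-D) * L * L) := by ring
    _ ≤ T * L * (L ^ (-D) * L * L) := by
        refine mul_le_mul_of_nonneg_right (mul_le_mul_of_nonneg_left ?_ hT0.le) (by positivity)
        nlinarith [mul_pos hr hC]
    _ = T * L ^ (3 - D) := by
        have : L ^ (3 - D) = L ^ (-D) * L ^ (3:ℝ) := by rw [← Real.rpow_add hL0]; congr 1; ring
        rw [this]
        have h3 : L ^ (3:ℝ) = L * L * L := by
          rw [show (3:ℝ) = ((3:ℕ):ℝ) by norm_num, Real.rpow_natCast]; ring
        rw [h3]; ring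
    _ ≤ T * L ^ (-A') := by
        refine mul_le_mul_of_nonneg_left (Real.rpow_le_rpow_of_exponent_le hL1 (by linarith)) hT0.le
    _ = T / L ^ A' := by rw [Real.rpow_neg hL0.le, div_eq_mul_inv]

end

end Pool.Agent.J6H67.LX
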