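import Pool.Agent.Y755.Fin4
import Pool.Agent.H448R2.GC.X1
import Pool.Agent.Y745.UP.Defs

set_option autoImplicit false

/-! Moments of zeta at distance about `1 / log T` from the critical line, on both sides. -/

namespace Pool.Agent.J6H67.LX

open Filter Topology MeasureTheory Complex Pool.Agent.Y755 Pool.Agent.H306R2
open Pool.Agent.W184 (zn zn_nonneg)
open Pool.Agent.H448R2.GC (XX)
open scoped ComplexConjugate

noncomputable section

lemma DD_anti {α δ δ' : ℝ} (hα : 0 < α) (hδ : 0 < δ) (h : δ ≤ δ') : DD α δ' ≤ DD α δ := by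
  unfold DD
  refine Summable.tsum_le_tsum (fun n => ?_) (g2_summable hα (hδ.trans_le h)) (g2_summable hα hδ)
  rcases Nat.eq_zero_or_pos n with h0 | h0
  · subst h0
    unfold g2 dv
    simp
  · have hn : (1:ℝ) ≤ n := by exact_mod_cast h0
    unfold g2 wδ
    refine mul_le_mul_of_nonneg_left (mul_le_mul_of_nonneg_right ?_ (by positivity)) (sq_nonneg _)
    exact Real.rpow_le_rpow_of_exponent_le hn (by linarith)

lemma mom_all {α : ℝ} (hα : 0 < α) (hα2 : α ≤ 2) : ∃ lam : ℝ, 1 ≤ lam ∧ ∀ᶠ T : ℝ in atTop, ∀ δ : ℝ,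
    lam / Real.log T ≤ δ → δ ≤ 1 / 16 → mom (2 * α) (1 / 2 + δ) 0 T ≤ (1 + 1) * DD α δ := by
  rcases le_total α 1 with h | h
  · obtain ⟨lam, h1, h2⟩ := mom_up hα h one_pos
    exact ⟨lam, h1, h2 0⟩
  · obtain ⟨lam, h1, h2⟩ := mom_up4 h hα2 one_pos
    exact ⟨lam, h1, h2 0⟩

lemma DD_size {α lam : ℝ} (hα : 0 < α) (hlam : 1 ≤ lam) : ∀ᶠ T : ℝ in atTop,
    DD α (lam / Real.log T) ≤ (|aF α| + 1) * Real.log T ^ (α ^ 2) := by
  have hlog := Real.tendsto_log_atTop
  have h0 : ∀ᶠ T : ℝ in atTop, 0 < lam / Real.log T := by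
    filter_upwards [hlog.eventually_gt_atTop 0] with T hT
    exact div_pos (by linarith) hT
  have h1 : Tendsto (fun T : ℝ => lam / Real.log T) atTop (𝓝 0) := hlog.const_div_atTop lam
  have h2 := DD_asym hα h0 h1
  filter_upwards [h2.eventually_le_const (show aF α < |aF α| + 1 by linarith [le_abs_self (aF α)]),
    hlog.eventually_ge_atTop 1] with T hT hL
  have hL0 : 0 < Real.log T := by linarith
  have h3 : 1 ≤ (2 * (lam / Real.log T)) ^ (α ^ 2) * Real.log T ^ (α ^ 2) := by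
    rw [← Real.mul_rpow (by positivity) hL0.le]
    refine Real.one_le_rpow ?_ (sq_nonneg _)
    have : 2 * (lam / Real.log T) * Real.log T = 2 * lam := by field_simp
    rw [this]; linarith
  have hD : 0 ≤ DD α (lam / Real.log T) := by
    have := DD_ge_one hα (show 0 < lam / Real.log T by positivity)
    linarith
  calc DD α (lam / Real.log T) = 1 * DD α (lam / Real.log T) := (one_mul _).symm
    _ ≤ ((2 * (lam / Real.log T)) ^ (α ^ 2) * Real.log T ^ (α ^ 2)) * DD α (lam / Real.log T) :=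
        mul_le_mul_of_nonneg_right h3 hD
    _ = ((2 * (lam / Real.log T)) ^ (α ^ 2) * DD α (lam / Real.log T)) * Real.log T ^ (α ^ 2) := by ring
    _ ≤ _ := mul_le_mul_of_nonneg_right hT (by positivity)

lemma right_side {α : ℝ} (hα : 0 < α) (hα2 : α ≤ 2) : ∃ lam : ℝ, 1 ≤ lam ∧ ∃ C : ℝ, 1 ≤ C ∧
    ∀ᶠ T : ℝ in atTop, ∀ δ : ℝ, lam / Real.log T ≤ δ → δ ≤ 1 / 16 →
    ∫ t in (T / 4)..(4 * T), zn (1 / 2 + δ) t ^ (2 * α) ≤ C * (T * Real.log T ^ (α ^ 2)) := by
  obtain ⟨lam, hlam, hm⟩ := mom_all hα hα2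
  refine ⟨lam, hlam, 8 * (|aF α| + 1), by linarith [abs_nonneg (aF α)], ?_⟩
  have hlog := Real.tendsto_log_atTop
  have h4 : Tendsto (fun T : ℝ => 4 * T) atTop atTop := tendsto_id.const_mul_atTop (by norm_num)
  filter_upwards [h4.eventually hm, DD_size hα hlam, hlog.eventually_ge_atTop 1, eventually_ge_atTop 1]
    with T h1 h2 hL hT δ hδ hδ1
  have hL0 : 0 < Real.log T := by linarith
  have hT0 : 0 < T := by linarith
  have hlT : lam / Real.log (4 * T) ≤ lam / Real.log T :=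
    div_le_div_of_nonneg_left (by linarith) hL0 (Real.log_le_log hT0 (by linarith))
  have g1 := h1 δ (hlT.trans hδ) hδ1
  have hδ0 : 0 < δ := lt_of_lt_of_le (by positivity) hδ
  have g2 := DD_anti hα (show 0 < lam / Real.log T by positivity) hδ
  rw [mom_eq _ _ _ (by positivity : (0:ℝ) < 4 * T), add_zero] at g1
  have hc : Continuous fun t => zn (1 / 2 + δ) t ^ (2 * α) := znp_cont (by linarith) (by linarith)
  have g3 : ∫ t in (T / 4)..(4 * T), zn (1 / 2 + δ) t ^ (2 * α) ≤
      ∫ t in (0:ℝ)..(4 * T), zn (1 / 2 + δ) t ^ (2 * α) := by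
    refine intervalIntegral.integral_mono_interval (by positivity) (by linarith) le_rfl ?_
      (hc.intervalIntegrable _ _)
    exact Eventually.of_forall fun t => Real.rpow_nonneg (norm_nonneg _) _
  rw [inv_mul_le_iff₀ (by positivity)] at g1
  calc _ ≤ ∫ t in (0:ℝ)..(4 * T), zn (1 / 2 + δ) t ^ (2 * α) := g3
    _ ≤ 4 * T * ((1 + 1) * DD α δ) := g1
    _ ≤ 4 * T * ((1 + 1) * ((|aF α| + 1) * Real.log T ^ (α ^ 2))) := by
        refine mul_le_mul_of_nonneg_left (mul_le_mul_of_nonneg_left (g2.trans h2) (by norm_num)) (by positivity)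
    _ = _ := by ring

/-- zeta to the left of the critical line -/
lemma left_le : ∃ C : ℝ, 1 ≤ C ∧ ∀ δ t : ℝ, 0 ≤ δ → δ ≤ 1 / 4 → 1 ≤ t →
    zn (1 / 2 - δ) t ≤ C * (1 + t) ^ δ * zn (1 / 2 + δ) t := by
  obtain ⟨C, hC, h⟩ := Pool.Agent.H448R2.GC.XX_upper 1
  refine ⟨max C 1, le_max_right _ _, fun δ t hδ hδ1 ht => ?_⟩
  set w : ℂ := ⟨1 / 2 + δ, -t⟩ with hw
  have h1 := h w (by simp [hw]; linarith) (by simp [hw]; linarith)
  have hw1 : w ≠ 1 := by
    intro h2
    have := congrArg Complex.im h2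
    simp [hw] at this
    linarith
  have h2 := Pool.Agent.H448R2.GC.zeta_fe w (by simp [hw]; linarith) hw1
  have e1 : (((1 / 2 - δ : ℝ) : ℂ) + t * I) = 1 - w := by
    apply Complex.ext
    · simp [hw]; ring
    · simp [hw]
  have e2 : w = conj (((1 / 2 + δ : ℝ) : ℂ) + t * I) := by
    apply Complex.ext
    · simp [hw]
    · simp [hw]
  have e3 : ‖riemannZeta w‖ = zn (1 / 2 + δ) t := by
    unfold zn
    rw [e2, riemannZeta_conj, Complex.norm_conj]
  have e4 : zn (1 / 2 - δ) t = ‖XX w‖ * zn (1 / 2 + δ) t := by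
    unfold zn
    rw [e1, h2, norm_mul, e3]
    rfl
  rw [e4]
  refine mul_le_mul_of_nonneg_right (h1.trans ?_) (norm_nonneg _)
  have e5 : (1 + |w.im|) ^ (w.re - 1 / 2) = (1 + t) ^ δ := by
    have : w.im = -t := rfl
    rw [this, abs_neg, abs_of_pos (by linarith)]
    congr 1
    simp [hw]
  rw [e5]
  exact mul_le_mul_of_nonneg_right (le_max_left _ _) (by positivity)

theorem t_OUT : Pool.Agent.Y745.UP.P_OUT := by
  intro α hα hα2
  obtain ⟨lam, hlam, C, hC, hr⟩ := right_side hα hα2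
  obtain ⟨C1, hC1, hl⟩ := left_le
  refine ⟨lam, hlam, fun K hK => ?_⟩
  set M : ℝ := (C1 * Real.exp (2 * K)) ^ (2 * α) with hM
  have hK0 : 0 < K := by linarith
  have hM1 : 1 ≤ M := by
    refine Real.one_le_rpow ?_ (by positivity)
    have : 1 ≤ Real.exp (2 * K) := Real.one_le_exp (by positivity)
    nlinarith
  refine ⟨M * C, by nlinarith, ?_⟩
  have hlog := Real.tendsto_log_atTop
  filter_upwards [hr, hlog.eventually_ge_atTop (16 * K), eventually_ge_atTop 10] with T h1 hL hT x hx1 hx2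
  have hT0 : 0 < T := by linarith
  have hL0 : 0 < Real.log T := by linarith
  have hx0 : 0 < |x| := lt_of_lt_of_le (by positivity) hx1
  have hx16 : |x| ≤ 1 / 16 := hx2.trans (by rw [div_le_div_iff₀ hL0 (by norm_num)]; linarith)
  have g1 := h1 |x| hx1 hx16
  have hP : 0 ≤ T * Real.log T ^ (α ^ 2) := by positivity
  rcases le_or_gt 0 x with h0 | h0
  · rw [abs_of_nonneg h0] at g1
    have e : ∫ t in (T / 4)..(4 * T), ‖riemannZeta (((1 / 2 + x : ℝ) : ℂ) + t * I)‖ ^ (2 * α) =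
        ∫ t in (T / 4)..(4 * T), zn (1 / 2 + x) t ^ (2 * α) := rfl
    rw [e]
    calc _ ≤ C * (T * Real.log T ^ (α ^ 2)) := g1
      _ = 1 * (C * (T * Real.log T ^ (α ^ 2))) := (one_mul _).symm
      _ ≤ M * (C * (T * Real.log T ^ (α ^ 2))) := mul_le_mul_of_nonneg_right hM1 (by positivity)
      _ = _ := by ring
  · rw [abs_of_neg h0] at g1 hx2 hx16
    have e : ∫ t in (T / 4)..(4 * T), ‖riemannZeta (((1 / 2 + x : ℝ) : ℂ) + t * I)‖ ^ (2 * α) =
        ∫ t in (T / 4)..(4 * T), zn (1 / 2 - (-x)) t ^ (2 * α) := by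
      rw [sub_neg_eq_add]
      rfl
    rw [e]
    have hc : ∀ σ : ℝ, σ < 1 → Continuous fun t => zn σ t ^ (2 * α) := fun σ hσ => znp_cont hσ (by linarith)
    have h2 : ∫ t in (T / 4)..(4 * T), zn (1 / 2 - (-x)) t ^ (2 * α) ≤
        ∫ t in (T / 4)..(4 * T), M * zn (1 / 2 + (-x)) t ^ (2 * α) := by
      refine intervalIntegral.integral_mono_on (by linarith) ((hc _ (by linarith)).intervalIntegrable _ _)
        (((hc _ (by linarith)).const_mul M).intervalIntegrable _ _) fun t ht => ?_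
      have ht1 : 1 ≤ t := by linarith [ht.1]
      have h3 := hl (-x) t (by linarith) (by linarith) ht1
      have h4 : (1 + t) ^ (-x) ≤ Real.exp (2 * K) := by
        rw [Real.rpow_def_of_pos (by linarith)]
        refine Real.exp_le_exp.mpr ?_
        have h5 : Real.log (1 + t) ≤ 2 * Real.log T := by
          have : Real.log (T ^ 2) = 2 * Real.log T := by rw [Real.log_pow]; norm_num
          rw [← this]
          refine Real.log_le_log (by linarith) ?_
          nlinarith [ht.2]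
        have h6 : -x * Real.log T ≤ K := by
          rw [le_div_iff₀ hL0] at hx2
          exact hx2
        calc Real.log (1 + t) * (-x) ≤ 2 * Real.log T * (-x) := mul_le_mul_of_nonneg_right h5 (by linarith)
          _ = 2 * (-x * Real.log T) := by ring
          _ ≤ 2 * K := by linarith
      have h7 : zn (1 / 2 - (-x)) t ≤ (C1 * Real.exp (2 * K)) * zn (1 / 2 + (-x)) t := by
        refine h3.trans (mul_le_mul_of_nonneg_right ?_ (norm_nonneg _))
        exact mul_le_mul_of_nonneg_left h4 (by linarith)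
      calc zn (1 / 2 - (-x)) t ^ (2 * α) ≤ ((C1 * Real.exp (2 * K)) * zn (1 / 2 + (-x)) t) ^ (2 * α) :=
            Real.rpow_le_rpow (norm_nonneg _) h7 (by linarith)
        _ = _ := by rw [Real.mul_rpow (by positivity) (zn_nonneg _ _)]
    rw [intervalIntegral.integral_const_mul] at h2
    calc _ ≤ M * ∫ t in (T / 4)..(4 * T), zn (1 / 2 + (-x)) t ^ (2 * α) := h2
      _ ≤ M * (C * (T * Real.log T ^ (α ^ 2))) := mul_le_mul_of_nonneg_left g1 (by linarith)
      _ = _ := by ring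

end

end Pool.Agent.J6H67.LX
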