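import Pool.Agent.J6H67.LX.ZUP
import Pool.Agent.J6H67.LX.G1M
import Pool.Agent.J6H67.LX.OUT
import Pool.Agent.Y624.UP.NZ1
import Pool.Agent.Y363.LD.ZL2b

set_option autoImplicit false
set_option maxHeartbeats 4000000

/-! Short intervals rarely contain many zeros. -/

namespace Pool.Agent.J6H67.LX

open Filter Topology MeasureTheory Complex H370 Pool.Agent.Y745.SW Pool.Agent.Y745.LD
open Pool.Agent.Y745.UP Pool.Agent.Y568.UP
open Pool.Agent.Y655.SW (VV pA_apply)
open Pool.Agent.Y41.SW (DP)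
open Pool.Agent.Y624.UP (Bad Bad_meas Bad_sub not_Bad Bad_vol fA fA_apply fA_bound fA_supp)
open Pool.Agent.Y949.LD (ev_VV ev_pow ev_LL LL_tend)
open Pool.Agent.Y363.LD (an an_norm an_term an_pp pp_of_le pp_half norm_nit C0 C0_nonneg)

noncomputable section

/-! ### the Dirichlet polynomial -/

/-- the coefficients -/
def hcf (w : ℕ → ℝ) (d : ℝ) (n : ℕ) : ℝ :=
  ArithmeticFunction.vonMangoldt n / Real.log n * w n * (n : ℝ) ^ (-(1 / 2 + d))

lemma an_real (w : ℕ → ℝ) (d : ℝ) (n : ℕ) : an w d n = ((hcf w d n : ℝ) : ℂ) := by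
  have h : (((n : ℝ) ^ (-(1 / 2 + d)) : ℝ) : ℂ) = (n : ℂ) ^ (-(1 / 2 + (d : ℂ))) := by
    rw [Complex.ofReal_cpow (Nat.cast_nonneg n)]
    push_cast
    rfl
  unfold an hcf
  rw [← h, ← Complex.ofReal_mul]

lemma hcf_le (w : ℕ → ℝ) (hw : ∀ n, 0 ≤ w n ∧ w n ≤ 1) (d : ℝ) (hd : 0 ≤ d) (n : ℕ) (hn : 1 ≤ n) :
    |hcf w d n| ≤ 1 * (Real.sqrt n)⁻¹ := by
  have h := an_norm w hw d hd n hn
  rw [an_real, Complex.norm_real, Real.norm_eq_abs] at h
  rw [one_mul]
  refine h.trans (le_of_eq ?_)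
  rw [Real.rpow_neg (Nat.cast_nonneg n), Real.sqrt_eq_rpow]

lemma split_sum (c T : ℝ) (w : ℕ → ℝ) (d t : ℝ) :
    ∑ n ∈ Finset.Icc 2 ⌊yc c T⌋₊, ((ArithmeticFunction.vonMangoldt n / Real.log n * w n : ℝ) : ℂ) *
      (n : ℂ) ^ (-(1 / 2 + (d : ℂ) + t * I)) =
    DP (fA c T (hcf w d)) ⌊yc c T⌋₊ t +
      ∑ n ∈ (Finset.Icc 1 ⌊yc c T⌋₊).filter (fun n => 2 ≤ n ∧ ¬ n.Prime), an w d n * (n : ℂ) ^ (-(t : ℂ) * I) := by
  classical
  have hL : (∑ n ∈ Finset.Icc 2 ⌊yc c T⌋₊, ((ArithmeticFunction.vonMangoldt n / Real.log n * w n : ℝ) : ℂ) *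
      (n : ℂ) ^ (-(1 / 2 + (d : ℂ) + t * I))) =
      ∑ n ∈ Finset.Icc 1 ⌊yc c T⌋₊, (if 2 ≤ n then an w d n else 0) * (n : ℂ) ^ (-(t : ℂ) * I) := by
    simp only [ite_mul, zero_mul]
    rw [← Finset.sum_filter]
    have : (Finset.Icc 1 ⌊yc c T⌋₊).filter (fun n => 2 ≤ n) = Finset.Icc 2 ⌊yc c T⌋₊ := by
      ext n; simp only [Finset.mem_filter, Finset.mem_Icc]; omega
    rw [this]
    refine Finset.sum_congr rfl fun n hn => ?_
    exact an_term w d t n (by have := (Finset.mem_Icc.1 hn).1; omega)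
  rw [hL, Finset.sum_filter]
  unfold DP
  rw [← Finset.sum_add_distrib]
  refine Finset.sum_congr rfl fun n hn => ?_
  have hle : (n : ℝ) ≤ yc c T :=
    (Nat.le_floor_iff (show 0 ≤ yc c T from (Real.exp_pos _).le)).1 (Finset.mem_Icc.1 hn).2
  rw [fA_apply]
  by_cases hp : n.Prime
  · have h2 := hp.two_le
    rw [if_pos h2, if_pos ⟨hp, hle⟩, if_neg (by tauto), add_zero, an_real]
  · by_cases h2 : 2 ≤ n
    · rw [if_pos h2, if_neg (by tauto), if_pos ⟨h2, hp⟩]
      simp
    · rw [if_neg h2, if_neg (by tauto), if_neg (by tauto)]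
      simp

lemma np_bound (w : ℕ → ℝ) (hw : ∀ n, 0 ≤ w n ∧ w n ≤ 1) (d : ℝ) (hd : 0 ≤ d) (y t : ℝ) :
    ‖∑ n ∈ (Finset.Icc 1 ⌊y⌋₊).filter (fun n => 2 ≤ n ∧ ¬ n.Prime), an w d n * (n : ℂ) ^ (-(t : ℂ) * I)‖ ≤
      VV y + C0 := by
  classical
  refine (norm_sum_le _ _).trans ?_
  have h1 : ∀ n ∈ (Finset.Icc 1 ⌊y⌋₊).filter (fun n => 2 ≤ n ∧ ¬ n.Prime),
      ‖an w d n * (n : ℂ) ^ (-(t : ℂ) * I)‖ ≤ if an w d n ≠ 0 then (n : ℝ) ^ (-(1 / 2) : ℝ) else 0 := by
    intro n hn
    by_cases h : an w d n = 0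
    · simp [h]
    · rw [if_pos h, norm_mul]
      have h2 := an_norm w hw d hd n (Finset.mem_Icc.1 (Finset.mem_filter.1 hn).1).1
      calc ‖an w d n‖ * ‖(n : ℂ) ^ (-(t : ℂ) * I)‖ ≤ ‖an w d n‖ * 1 :=
            mul_le_mul_of_nonneg_left (norm_nit n t) (norm_nonneg _)
        _ ≤ _ := by rw [mul_one]; exact h2
  refine (Finset.sum_le_sum h1).trans ?_
  rw [← Finset.sum_filter]
  refine pp_half ⌊y⌋₊ ⌊y⌋₊ _ ((Finset.filter_subset _ _).trans (Finset.filter_subset _ _)) ?_
  intro n hn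
  rw [Finset.mem_filter, Finset.mem_filter, Finset.mem_Icc] at hn
  exact pp_of_le w d n _ hn.2 hn.1.2.2 hn.1.1.2

/-- the Dirichlet polynomial is rarely large -/
lemma poly_small {c e A' : ℝ} (hc0 : 0 < c) (hc1 : c < 1) (he : 0 < e) (hA' : 0 < A') : ∀ᶠ T : ℝ in atTop,
    ∀ (w : ℕ → ℝ) (d : ℝ), (∀ n, 0 ≤ w n ∧ w n ≤ 1) → 0 ≤ d → ∃ E : Set ℝ, MeasurableSet E ∧
      E ⊆ Set.Icc T (2 * T) ∧ volume.real E ≤ T / Real.log T ^ A' ∧ ∀ t ∈ Set.Icc T (2 * T), t ∉ E →
        ‖∑ n ∈ Finset.Icc 2 ⌊yc c T⌋₊, ((ArithmeticFunction.vonMangoldt n / Real.log n * w n : ℝ) : ℂ) *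
          (n : ℂ) ^ (-(1 / 2 + (d : ℂ) + t * I))‖ ≤ Real.log T ^ e := by
  obtain ⟨k, hk1, hk⟩ : ∃ k : ℕ, 1 ≤ k ∧ A' ≤ e * k := by
    refine ⟨⌈A' / e⌉₊ + 1, by omega, ?_⟩
    have := Nat.le_ceil (A' / e)
    push_cast
    rw [div_le_iff₀ he] at this
    nlinarith
  have hC0 := C0_nonneg
  have hkf : (1:ℝ) ≤ (k.factorial : ℝ) := by exact_mod_cast Nat.factorial_pos k
  filter_upwards [ev_VV c hc0 hc1, ev_pow c hc1, ev_LL e (16 * (k.factorial : ℝ)) he (by positivity),
    ev_LL e (2 * (2 + C0)) he (by positivity), LL_tend.eventually_ge_atTop (max 1 (k : ℝ)),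
    Real.tendsto_log_atTop.eventually_ge_atTop (1:ℝ), eventually_ge_atTop (4:ℝ)] with T hV hZ h1 h2 hl hL hT
    w d hw hd
  have hl1 : 1 ≤ LL T := (le_max_left _ _).trans hl
  have hlk : (k : ℝ) ≤ LL T := (le_max_right _ _).trans hl
  have hT0 : 0 < T := by linarith
  have hL0 : 0 < Real.log T := by linarith
  set f := fA c T (hcf w d) with hf
  set M : ℝ := Real.log T ^ e / 2 with hM
  have hLe : 0 < Real.log T ^ e := Real.rpow_pos_of_pos hL0 _
  have hM0 : 0 < M := by positivity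
  refine ⟨Bad f ⌊yc c T⌋₊ k M T, Bad_meas _ _ _ _ _, Bad_sub _ _ _ _ _, ?_, ?_⟩
  · have hb : ∀ n, |f n| ≤ 1 * pA (yc c T) n := fA_bound c T 1 _ fun n hn =>
      hcf_le w hw d hd n ((Pool.Agent.Y732.LD.mem_Pr c T n).1 hn).1.one_lt.le
    have hv := Bad_vol f c T 1 M k hb (fA_supp c T _) zero_le_one hM0 hT0.le (hZ k (by linarith))
    refine hv.trans ?_
    have hVV0 : 0 ≤ VV (yc c T) := Finset.sum_nonneg fun _ _ => by positivity
    have e1 : (1 / M) ^ (2 * k) * ((k.factorial : ℝ) * VV (yc c T) ^ k) ≤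
        (1 / M) ^ (2 * k) * ((k.factorial : ℝ) * (2 * LL T) ^ k) := by
      refine mul_le_mul_of_nonneg_left (mul_le_mul_of_nonneg_left ?_ (by positivity)) (by positivity)
      exact pow_le_pow_left₀ hVV0 hV k
    have e2 : (2:ℝ) * ((1 / M) ^ (2 * k) * ((k.factorial : ℝ) * (2 * LL T) ^ k)) =
        2 * (k.factorial : ℝ) * (8 * LL T) ^ k / (Real.log T ^ e) ^ (2 * k) := by
      rw [hM, one_div, inv_div, div_pow, pow_mul (2:ℝ) 2 k]
      rw [show (8:ℝ) * LL T = 2 ^ 2 * (2 * LL T) by ring, mul_pow ((2:ℝ) ^ 2)]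
      ring
    have e3 : 2 * (k.factorial : ℝ) * (8 * LL T) ^ k ≤ (Real.log T ^ e) ^ k := by
      refine le_trans ?_ (pow_le_pow_left₀ (by positivity) h1 k)
      rw [show 16 * (k.factorial : ℝ) * LL T = (2 * (k.factorial : ℝ)) * (8 * LL T) by ring, mul_pow (2 * (k.factorial : ℝ)) (8 * LL T) k]
      refine mul_le_mul_of_nonneg_right ?_ (by positivity)
      exact le_self_pow₀ (by linarith) (by omega)
    have e4 : Real.log T ^ A' ≤ (Real.log T ^ e) ^ k := by
      rw [← Real.rpow_natCast (Real.log T ^ e) k, ← Real.rpow_mul hL0.le]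
      exact Real.rpow_le_rpow_of_exponent_le hL hk
    have hLA : 0 < Real.log T ^ A' := Real.rpow_pos_of_pos hL0 _
    calc 2 * T * ((1 / M) ^ (2 * k) * ((k.factorial : ℝ) * VV (yc c T) ^ k))
        ≤ 2 * T * ((1 / M) ^ (2 * k) * ((k.factorial : ℝ) * (2 * LL T) ^ k)) :=
          mul_le_mul_of_nonneg_left e1 (by positivity)
      _ = T * (2 * ((1 / M) ^ (2 * k) * ((k.factorial : ℝ) * (2 * LL T) ^ k))) := by ring
      _ = T * (2 * (k.factorial : ℝ) * (8 * LL T) ^ k / (Real.log T ^ e) ^ (2 * k)) := by rw [e2]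
      _ ≤ T * ((Real.log T ^ e) ^ k / (Real.log T ^ e) ^ (2 * k)) :=
          mul_le_mul_of_nonneg_left (div_le_div_of_nonneg_right e3 (by positivity)) hT0.le
      _ = T * (1 / (Real.log T ^ e) ^ k) := by
          congr 1
          rw [two_mul, pow_add]
          field_simp
      _ ≤ T * (1 / Real.log T ^ A') :=
          mul_le_mul_of_nonneg_left (one_div_le_one_div_of_le hLA e4) hT0.le
      _ = T / Real.log T ^ A' := by ring
  · intro t ht htE
    rw [split_sum]
    have b1 := not_Bad f ⌊yc c T⌋₊ k M T t hk1 hM0 ht htE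
    have b2 := np_bound w hw d hd (yc c T) t
    have b3 : VV (yc c T) + C0 ≤ Real.log T ^ e / 2 := by nlinarith
    refine (norm_add_le _ _).trans ?_
    have b4 : M = Real.log T ^ e / 2 := rfl
    linarith

/-! ### the upper bound -/

lemma ms_all (hSTRIP : P_STRIP) {e : ℝ} (he : 0 < e) (he1 : e < 1) : ∀ᶠ T : ℝ in atTop, ∀ x : ℝ,
    |x| ≤ 10 * Real.log T ^ (e - 1) →
    ∫ t in (T / 2)..(3 * T), ‖riemannZeta (((1 / 2 + x : ℝ) : ℂ) + t * I)‖ ^ (2 * 1 : ℝ) ≤
      T * Real.exp (50 * Real.log T ^ e) := by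
  obtain ⟨lam, hlam, C, hC, hr⟩ := right_side (α := 1) one_pos (by norm_num)
  obtain ⟨C1, hC1, hl⟩ := left_le
  obtain ⟨C2, hC2, hS⟩ := hSTRIP 1 lam one_pos (by norm_num) (by linarith)
  have hlog := Real.tendsto_log_atTop
  have hpe : Tendsto (fun T : ℝ => Real.log T ^ e) atTop atTop := (tendsto_rpow_atTop he).comp hlog
  have hpm : Tendsto (fun T : ℝ => Real.log T ^ (e - 1)) atTop (𝓝 0) := by
    have := (tendsto_rpow_neg_atTop (show 0 < 1 - e by linarith)).comp hlog
    refine this.congr fun T => ?_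
    simp only [Function.comp]
    congr 1; ring
  filter_upwards [hr, hS, ev_LL e 1 he one_pos, hpe.eventually_ge_atTop (Real.log (C * C1 ^ 2)),
    hpe.eventually_ge_atTop (Real.log C2), hpm.eventually_le_const (show (0:ℝ) < 1 / 160 by norm_num),
    hlog.eventually_ge_atTop 1, eventually_ge_atTop (10:ℝ)] with T h1 h2 h3 h4 h5 h6 hL hT x hx
  have hT0 : 0 < T := by linarith
  have hL0 : 0 < Real.log T := by linarith
  have hLe : 1 ≤ Real.log T ^ e := Real.one_le_rpow hL he.le
  have hLexp : Real.log T ≤ Real.exp (Real.log T ^ e) := by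
    have : Real.log (Real.log T) ≤ Real.log T ^ e := by
      have h7 : LL T = Real.log (Real.log T) := rfl
      linarith
    calc Real.log T = Real.exp (Real.log (Real.log T)) := (Real.exp_log hL0).symm
      _ ≤ _ := Real.exp_le_exp.2 this
  have hCexp : C * C1 ^ 2 ≤ Real.exp (Real.log T ^ e) := by
    have hpos : 0 < C * C1 ^ 2 := by positivity
    calc C * C1 ^ 2 = Real.exp (Real.log (C * C1 ^ 2)) := (Real.exp_log hpos).symm
      _ ≤ _ := Real.exp_le_exp.2 h4
  have hC2exp : C2 ≤ Real.exp (Real.log T ^ e) := by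
    calc C2 = Real.exp (Real.log C2) := (Real.exp_log (by linarith)).symm
      _ ≤ _ := Real.exp_le_exp.2 h5
  have hE1 : 0 < Real.exp (Real.log T ^ e) := Real.exp_pos _
  have e50 : Real.exp (50 * Real.log T ^ e) = Real.exp (Real.log T ^ e) ^ 50 := by
    rw [← Real.exp_nat_mul]; norm_num
  have hone : 1 ≤ Real.exp (Real.log T ^ e) := Real.one_le_exp (by linarith)
  rcases le_total |x| (lam / Real.log T) with hc | hc
  · have g := h2 x hc
    rw [one_pow, Real.rpow_one] at g
    refine g.trans ?_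
    calc C2 * (T * Real.log T) = T * (C2 * Real.log T) := by ring
      _ ≤ T * (Real.exp (Real.log T ^ e) * Real.exp (Real.log T ^ e)) := by gcongr
      _ = T * Real.exp (Real.log T ^ e) ^ 2 := by ring
      _ ≤ T * Real.exp (Real.log T ^ e) ^ 50 :=
          mul_le_mul_of_nonneg_left (pow_le_pow_right₀ hone (by norm_num)) hT0.le
      _ = _ := by rw [e50]
  · have hx16 : |x| ≤ 1 / 16 := by linarith
    have g := h1 |x| hc hx16
    rw [one_pow, Real.rpow_one] at g
    have hcont : ∀ σ : ℝ, σ < 1 → Continuous fun t => Pool.Agent.W184.zn σ t ^ (2 * 1 : ℝ) :=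
      fun σ hσ => Pool.Agent.Y755.znp_cont hσ (by norm_num)
    have gsub : ∫ t in (T / 2)..(3 * T), Pool.Agent.W184.zn (1 / 2 + |x|) t ^ (2 * 1 : ℝ) ≤ C * (T * Real.log T) := by
      refine le_trans ?_ g
      refine intervalIntegral.integral_mono_interval (by linarith) (by linarith) (by linarith) ?_
        ((hcont _ (by linarith)).intervalIntegrable _ _)
      exact Eventually.of_forall fun t => Real.rpow_nonneg (norm_nonneg _) _
    rcases le_or_gt 0 x with h0 | h0
    · rw [abs_of_nonneg h0] at gsub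
      refine le_trans gsub ?_
      have hCle : C ≤ C * C1 ^ 2 := le_mul_of_one_le_right (by linarith) (one_le_pow₀ hC1)
      calc C * (T * Real.log T) = T * (C * Real.log T) := by ring
        _ ≤ T * (Real.exp (Real.log T ^ e) * Real.exp (Real.log T ^ e)) := by
            have := hCle.trans hCexp
            gcongr
        _ = T * Real.exp (Real.log T ^ e) ^ 2 := by ring
        _ ≤ T * Real.exp (Real.log T ^ e) ^ 50 :=
            mul_le_mul_of_nonneg_left (pow_le_pow_right₀ hone (by norm_num)) hT0.le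
        _ = _ := by rw [e50]
    · rw [abs_of_neg h0] at gsub hx hx16
      have ee : ∫ t in (T / 2)..(3 * T), ‖riemannZeta (((1 / 2 + x : ℝ) : ℂ) + t * I)‖ ^ (2 * 1 : ℝ) =
          ∫ t in (T / 2)..(3 * T), Pool.Agent.W184.zn (1 / 2 - (-x)) t ^ (2 * 1 : ℝ) := by
        rw [sub_neg_eq_add]
        rfl
      rw [ee]
      set Mx : ℝ := (C1 * Real.exp (20 * Real.log T ^ e)) ^ 2 with hMx
      have hle : ∫ t in (T / 2)..(3 * T), Pool.Agent.W184.zn (1 / 2 - (-x)) t ^ (2 * 1 : ℝ) ≤
          ∫ t in (T / 2)..(3 * T), Mx * Pool.Agent.W184.zn (1 / 2 + (-x)) t ^ (2 * 1 : ℝ) := by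
        refine intervalIntegral.integral_mono_on (by linarith) ((hcont _ (by linarith)).intervalIntegrable _ _)
          (((hcont _ (by linarith)).const_mul Mx).intervalIntegrable _ _) fun t ht => ?_
        have ht1 : 1 ≤ t := by linarith [ht.1]
        have h7 := hl (-x) t (by linarith) (by linarith) ht1
        have h8 : (1 + t) ^ (-x) ≤ Real.exp (20 * Real.log T ^ e) := by
          rw [Real.rpow_def_of_pos (by linarith)]
          refine Real.exp_le_exp.mpr ?_
          have h9 : Real.log (1 + t) ≤ 2 * Real.log T := by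
            have : Real.log (T ^ 2) = 2 * Real.log T := by rw [Real.log_pow]; norm_num
            rw [← this]
            refine Real.log_le_log (by linarith) ?_
            nlinarith [ht.2]
          have h10 : Real.log T ^ (e - 1) * Real.log T = Real.log T ^ e := by
            rw [Real.rpow_sub_one hL0.ne', div_mul_cancel₀ _ hL0.ne']
          calc Real.log (1 + t) * (-x) ≤ 2 * Real.log T * (-x) := mul_le_mul_of_nonneg_right h9 (by linarith)
            _ ≤ 2 * Real.log T * (10 * Real.log T ^ (e - 1)) := mul_le_mul_of_nonneg_left hx (by positivity)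
            _ = 20 * (Real.log T ^ (e - 1) * Real.log T) := by ring
            _ = 20 * Real.log T ^ e := by rw [h10]
        have h11 : Pool.Agent.W184.zn (1 / 2 - (-x)) t ≤
            (C1 * Real.exp (20 * Real.log T ^ e)) * Pool.Agent.W184.zn (1 / 2 + (-x)) t := by
          refine h7.trans (mul_le_mul_of_nonneg_right ?_ (norm_nonneg _))
          exact mul_le_mul_of_nonneg_left h8 (by linarith)
        have h12 : (2 * 1 : ℝ) = ((2 : ℕ) : ℝ) := by norm_num
        rw [h12, Real.rpow_natCast, Real.rpow_natCast, hMx, ← mul_pow]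
        exact pow_le_pow_left₀ (norm_nonneg _) h11 2
      rw [intervalIntegral.integral_const_mul] at hle
      refine hle.trans ?_
      calc Mx * ∫ t in (T / 2)..(3 * T), Pool.Agent.W184.zn (1 / 2 + (-x)) t ^ (2 * 1 : ℝ)
          ≤ Mx * (C * (T * Real.log T)) := mul_le_mul_of_nonneg_left gsub (by positivity)
        _ = T * ((C * C1 ^ 2) * (Real.log T * Real.exp (20 * Real.log T ^ e) ^ 2)) := by rw [hMx]; ring
        _ ≤ T * (Real.exp (Real.log T ^ e) * (Real.exp (Real.log T ^ e) * Real.exp (20 * Real.log T ^ e) ^ 2)) := by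
            gcongr
        _ = T * Real.exp (Real.log T ^ e) ^ 42 := by
            have : Real.exp (20 * Real.log T ^ e) = Real.exp (Real.log T ^ e) ^ 20 := by
              rw [← Real.exp_nat_mul]; norm_num
            rw [this]; ring
        _ ≤ T * Real.exp (Real.log T ^ e) ^ 50 :=
            mul_le_mul_of_nonneg_left (pow_le_pow_right₀ hone (by norm_num)) hT0.le
        _ = _ := by rw [e50]

/-- a pointwise bound from the integral over a square -/
lemma pt_le {R t : ℝ} (hR : 0 < R) (hR1 : R ≤ 1 / 2) (ht : 4 ≤ t) {z : ℂ} (hz : ‖z - (1 / 2 + t * I)‖ ≤ R) :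
    ‖riemannZeta z‖ ^ (2 * 1 : ℝ) ≤ 1 / (Real.pi * R ^ 2) * Bx (GG (2 * 1)) (2 * R) t := by
  have hβ : (0:ℝ) < 2 * 1 := by norm_num
  have hFc : Continuous (GG (2 * 1)).uncurry := GG_cont hβ
  have hF0 : ∀ x t, 0 ≤ GG (2 * 1) x t := fun x t => GG_nonneg _ x t
  set x0 := z.re - 1 / 2 with hx0
  set y0 := z.im - t with hy0
  have e0 : z - (1 / 2 + t * I) = ⟨x0, y0⟩ := by
    apply Complex.ext <;> simp [hx0, hy0]
  have hx : |x0| ≤ R := by
    have := Complex.abs_re_le_norm (z - (1 / 2 + t * I))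
    rw [e0] at this hz
    exact this.trans hz
  have hy : |y0| ≤ R := by
    have := Complex.abs_im_le_norm (z - (1 / 2 + t * I))
    rw [e0] at this hz
    exact this.trans hz
  have hyl := (abs_le.1 hy).1
  have h1 := GG_sub Pool.Agent.Y732.UP.t_SUBA (β := 2 * 1) (R := R) (x := x0) (t := t + y0) hβ hR (by linarith)
  have h2 := Bx_sub hFc hF0 (t := t) hR hx hy
  have ez : (((1 / 2 + x0 : ℝ) : ℂ) + ((t + y0 : ℝ) : ℂ) * I) = z := by
    apply Complex.ext <;> simp [hx0, hy0]
  rw [GG_eq _ _ (by linarith), ez] at h1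
  exact h1.trans (mul_le_mul_of_nonneg_left h2 (by positivity))

lemma sup_small (hSTRIP : P_STRIP) {e A' : ℝ} (he : 0 < e) (he1 : e < 1) (hA' : 0 < A') :
    ∀ᶠ T : ℝ in atTop, ∃ E : Set ℝ, MeasurableSet E ∧
    E ⊆ Set.Icc T (2 * T) ∧ volume.real E ≤ T / Real.log T ^ A' ∧ ∀ t ∈ Set.Icc (T + 1) (2 * T - 1), t ∉ E →
    ∀ z : ℂ, ‖z - (1 / 2 + t * I)‖ ≤ 5 * Real.log T ^ (e - 1) →
      ‖riemannZeta z‖ ≤ Real.exp (Real.log T ^ (2 * e)) := by
  have hlog := Real.tendsto_log_atTop
  have hpe : Tendsto (fun T : ℝ => Real.log T ^ e) atTop atTop := (tendsto_rpow_atTop he).comp hlog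
  have hpm : Tendsto (fun T : ℝ => Real.log T ^ (e - 1)) atTop (𝓝 0) := by
    have := (tendsto_rpow_neg_atTop (show 0 < 1 - e by linarith)).comp hlog
    refine this.congr fun T => ?_
    simp only [Function.comp]
    congr 1; ring
  filter_upwards [ms_all hSTRIP he he1, ev_LL e A' he hA', hpe.eventually_ge_atTop 60,
    hpm.eventually_le_const (show (0:ℝ) < 1 / 10 by norm_num), hlog.eventually_ge_atTop 1,
    eventually_ge_atTop (16:ℝ)] with T hS h1 h2 h3 hL hT
  have hT0 : 0 < T := by linarith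
  have hL0 : 0 < Real.log T := by linarith
  set R : ℝ := 5 * Real.log T ^ (e - 1) with hR
  have hR0 : 0 < R := by positivity
  have hR1 : R ≤ 1 / 2 := by linarith
  have hβ : (0:ℝ) < 2 * 1 := by norm_num
  set F := GG (2 * 1) with hF
  have hFc : Continuous F.uncurry := GG_cont hβ
  have hF0 : ∀ x t, 0 ≤ F x t := fun x t => GG_nonneg _ x t
  have hQ : ∀ x, |x| ≤ 2 * R → MI F x (T - 2 * R) (2 * T + 2 * R) ≤ T * Real.exp (50 * Real.log T ^ e) := by
    intro x hx
    have h4 := hS x (by rw [hR] at hx; linarith)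
    rw [← MI_GG (2 * 1) x (by linarith) (by linarith)] at h4
    exact (MI_mono hFc hF0 (by linarith) (by linarith) (by linarith)).trans h4
  have hmean := Bx_mean hFc hF0 (by positivity : 0 ≤ 2 * R) (by linarith : T ≤ 2 * T) hQ
  set B := Real.exp (Real.log T ^ (2 * e)) with hB
  have hB0 : 0 < B := Real.exp_pos _
  have hB1 : 1 ≤ B := Real.one_le_exp (by positivity)
  obtain ⟨hm, hv⟩ := cheb (Bx_cont hFc (2 * R)) (Bx_nonneg hF0 (by positivity)) (by linarith : T ≤ 2 * T)
    (c := R ^ 2 * B) (by positivity) hmean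
  refine ⟨Set.Icc T (2 * T) ∩ {t | R ^ 2 * B < Bx F (2 * R) t}, hm, Set.inter_subset_left, ?_, ?_⟩
  · refine hv.trans ?_
    have e1 : 4 * (2 * R) ^ 2 * (T * Real.exp (50 * Real.log T ^ e)) / (R ^ 2 * B) =
        T * (16 * Real.exp (50 * Real.log T ^ e) / B) := by
      field_simp
      ring
    rw [e1, div_eq_mul_inv T]
    refine mul_le_mul_of_nonneg_left ?_ hT0.le
    have hLA : 0 < Real.log T ^ A' := Real.rpow_pos_of_pos hL0 _
    rw [div_le_iff₀ hB0, ← div_eq_inv_mul, le_div_iff₀ hLA]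
    have e2 : Real.log T ^ A' ≤ Real.exp (Real.log T ^ e) := by
      rw [Real.rpow_def_of_pos hL0]
      refine Real.exp_le_exp.2 ?_
      have h7 : LL T = Real.log (Real.log T) := rfl
      rw [h7] at h1
      linarith
    have e3 : (16:ℝ) ≤ Real.exp (9 * Real.log T ^ e) := by
      have := Real.add_one_le_exp (9 * Real.log T ^ e)
      linarith
    have e4 : Real.log T ^ (2 * e) = Real.log T ^ e * Real.log T ^ e := by
      rw [← Real.rpow_add hL0]; congr 1; ring
    calc 16 * Real.exp (50 * Real.log T ^ e) * Real.log T ^ A' ≤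
          Real.exp (9 * Real.log T ^ e) * Real.exp (50 * Real.log T ^ e) * Real.exp (Real.log T ^ e) := by
            gcongr
      _ = Real.exp (60 * Real.log T ^ e) := by
            rw [← Real.exp_add, ← Real.exp_add]; congr 1; ring
      _ ≤ B := by
            rw [hB, e4]
            refine Real.exp_le_exp.2 ?_
            exact mul_le_mul_of_nonneg_right h2 (by positivity)
  · intro t ht htE z hz
    have hΦ : Bx F (2 * R) t ≤ R ^ 2 * B := by
      by_contra hcon
      push Not at hcon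
      exact htE ⟨⟨by linarith [ht.1], by linarith [ht.2]⟩, hcon⟩
    have h4 := pt_le hR0 hR1 (by linarith [ht.1]) hz
    have h5 : ‖riemannZeta z‖ ^ (2 * 1 : ℝ) ≤ B := by
      refine h4.trans ?_
      have hpi := Real.pi_gt_three
      calc 1 / (Real.pi * R ^ 2) * Bx F (2 * R) t ≤ 1 / (Real.pi * R ^ 2) * (R ^ 2 * B) :=
            mul_le_mul_of_nonneg_left hΦ (by positivity)
        _ = 1 / Real.pi * B := by field_simp
        _ ≤ 1 * B := by
            refine mul_le_mul_of_nonneg_right ?_ hB0.le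
            rw [div_le_one Real.pi_pos]; linarith
        _ = B := one_mul _
    have h6 : (2 * 1 : ℝ) = ((2 : ℕ) : ℝ) := by norm_num
    rw [h6, Real.rpow_natCast] at h5
    by_contra hcon
    push Not at hcon
    have : B * B < ‖riemannZeta z‖ ^ 2 := by
      rw [sq]
      exact mul_lt_mul'' hcon hcon hB0.le hB0.le
    nlinarith

/-! ### Jensen's inequality -/

lemma NN_eq {a b : ℝ} (ha : 1 ≤ a) : (NN riemannZeta a b : ℝ) = ∑ s ∈ Zf riemannZeta a b, (mult riemannZeta s : ℝ) := by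
  unfold NN
  rw [finsum_Zf good_zeta ha, Nat.cast_sum]

lemma NN_mono {a b a' b' : ℝ} (ha : 1 ≤ a') (h1 : a' ≤ a) (h2 : b ≤ b') :
    (NN riemannZeta a b : ℝ) ≤ (NN riemannZeta a' b' : ℝ) := by
  rw [NN_eq (ha.trans h1), NN_eq ha]
  refine Finset.sum_le_sum_of_subset_of_nonneg ?_ fun s _ _ => by positivity
  intro s hs
  rw [mem_Zf good_zeta (ha.trans h1)] at hs
  rw [mem_Zf good_zeta ha]
  exact ⟨hs.1, hs.2.1, by linarith [hs.2.2.1], by linarith [hs.2.2.2.1], hs.2.2.2.2⟩

lemma nz_block (hSTRIP : P_STRIP) (hZ1 : P_Z1) {e A' : ℝ} (he : 0 < e) (he1 : e ≤ 1 / 2) (hA' : 0 < A') :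
    ∀ᶠ T : ℝ in atTop, ∃ E : Set ℝ, MeasurableSet E ∧
    E ⊆ Set.Icc T (2 * T) ∧ volume.real E ≤ T / Real.log T ^ A' ∧
    ∀ t ∈ Set.Icc (T + 3 * Real.log T) (2 * T - 3 * Real.log T), t ∉ E →
      (NN riemannZeta (t - 4 / Real.log T) (t + 4 / Real.log T) : ℝ) ≤ Real.log T ^ (4 * e) := by
  obtain ⟨D0, hD0, hG⟩ := t_G1M 1 (A' + 1) one_pos (by linarith)
  have hlog := Real.tendsto_log_atTop
  have hpe : Tendsto (fun T : ℝ => Real.log T ^ e) atTop atTop := (tendsto_rpow_atTop he).comp hlog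
  have hpm : Tendsto (fun T : ℝ => Real.log T ^ (e - 1)) atTop (𝓝 0) := by
    have := (tendsto_rpow_neg_atTop (show 0 < 1 - e by linarith)).comp hlog
    refine this.congr fun T => ?_
    simp only [Function.comp]
    congr 1; ring
  have hlogT := Real.isLittleO_log_id_atTop.bound (show (0:ℝ) < 1 / 100 by norm_num)
  filter_upwards [hG D0 le_rfl, hZ1 e D0 he (by linarith) hD0,
    poly_small (c := 1 - e / 3) (e := e) (A' := A' + 1) (by linarith) (by linarith) he (by linarith),
    sup_small hSTRIP (e := e) (A' := A' + 1) he (by linarith) (by linarith),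
    ev_LL e (4 * D0) he (by positivity), hpe.eventually_ge_atTop 16,
    hpm.eventually_le_const (show (0:ℝ) < 1 / 100 by norm_num), hlog.eventually_ge_atTop 4,
    eventually_ge_atTop (100:ℝ), hlogT] with T g1 g2 g3 g4 g5 g6 g7 hL hT hlT
  obtain ⟨g11, g12⟩ := g1
  obtain ⟨w, w1, -, w3⟩ := g2 1 le_rfl (by norm_num)
  have hT0 : 0 < T := by linarith
  have hL0 : 0 < Real.log T := by linarith
  have hLT : Real.log T ≤ T / 100 := by
    simp only [id, Real.norm_eq_abs] at hlT
    rw [abs_of_pos hL0, abs_of_pos (by linarith)] at hlT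
    linarith
  set x1 : ℝ := Real.log T ^ (e - 1) with hx1
  have hx0 : 0 < x1 := Real.rpow_pos_of_pos hL0 _
  obtain ⟨E2, m2, s2, v2, p2⟩ := g3 w (1 * x1) w1 (by rw [one_mul]; exact hx0.le)
  obtain ⟨E3, m3, s3, v3, p3⟩ := g4
  have hx1L : x1 * Real.log T = Real.log T ^ e := by
    rw [hx1, Real.rpow_sub_one hL0.ne', div_mul_cancel₀ _ hL0.ne']
  refine ⟨(Set.Icc T (2 * T) \ G1 1 D0 T) ∪ (E2 ∪ E3), (measurableSet_Icc.diff g11).union (m2.union m3),
    Set.union_subset Set.sdiff_subset (Set.union_subset s2 s3), ?_, ?_⟩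
  · have h1 := measureReal_union_le (μ := volume) (Set.Icc T (2 * T) \ G1 1 D0 T) (E2 ∪ E3)
    have h2 := measureReal_union_le (μ := volume) E2 E3
    have h3 : T / Real.log T ^ (A' + 1) * 3 ≤ T / Real.log T ^ A' := by
      have hLA : 0 < Real.log T ^ A' := Real.rpow_pos_of_pos hL0 _
      rw [Real.rpow_add hL0, Real.rpow_one, div_mul_eq_mul_div, div_le_div_iff₀ (by positivity) hLA]
      have : T * Real.log T ^ A' * 3 ≤ T * Real.log T ^ A' * Real.log T :=
        mul_le_mul_of_nonneg_left (by linarith) (by positivity)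
      linarith
    linarith
  · intro t ht htE
    simp only [Set.mem_union, not_or] at htE
    obtain ⟨n1, n2, n3⟩ := htE
    have htI : t ∈ Set.Icc T (2 * T) := ⟨by linarith [ht.1], by linarith [ht.2]⟩
    have hG1 : t ∈ G1 1 D0 T := by
      by_contra hcon
      exact n1 ⟨htI, hcon⟩
    have q1 := w3 t ⟨hG1, by linarith [ht.1], by linarith [ht.2]⟩
    have q2 := p2 t htI n2
    have q3 := p3 t ⟨by linarith [ht.1], by linarith [ht.2]⟩ n3
    set s0 : ℂ := 1 / 2 + (1 * x1 : ℝ) + t * I with hs0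
    have hs0re : s0.re = 1 / 2 + x1 := by simp [hs0]
    have hs0im : s0.im = t := by simp [hs0]
    -- the zeros near `t` are near the line
    have hDx : D0 * LL T / Real.log T ≤ x1 / 4 := by
      rw [div_le_iff₀ hL0, show x1 / 4 * Real.log T = x1 * Real.log T / 4 by ring, hx1L]
      linarith
    have hne : riemannZeta s0 ≠ 0 := by
      intro hcon
      have h5 := hG1 s0 hcon (by rw [hs0re]; linarith) (by rw [hs0re]; linarith)
        (by rw [hs0im, sub_self, abs_zero]; positivity)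
      rw [hs0re, show 1 / 2 + x1 - 1 / 2 = x1 by ring, abs_of_pos hx0] at h5
      linarith
    have hlow : -(Real.log T ^ e + 1) ≤ Real.log ‖riemannZeta s0‖ := by
      have h5 := (abs_le.1 q1).1
      have h6 := (abs_le.1 ((Complex.abs_re_le_norm _).trans q2)).1
      have h7 : (∑ n ∈ Finset.Icc 2 ⌊Real.exp (Real.log T ^ (1 - e / 3))⌋₊,
        ((ArithmeticFunction.vonMangoldt n / Real.log n * w n : ℝ) : ℂ) *
          (n : ℂ) ^ (-(1 / 2 + (1 * Real.log T ^ (e - 1) : ℝ) + t * I))).re ≥ -(Real.log T ^ e) := h6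
      linarith
    have hU : (1:ℝ) ≤ t - 4 / Real.log T := by
      have : 4 / Real.log T ≤ 1 := by rw [div_le_one hL0]; exact hL
      linarith [ht.1]
    rw [NN_eq hU]
    have h4L : 4 / Real.log T ≤ x1 / 4 := by
      rw [div_le_iff₀ hL0, show x1 / 4 * Real.log T = x1 * Real.log T / 4 by ring, hx1L]
      linarith
    have hJ := Loc.jensen_mult (f := riemannZeta) (c := s0) (r := 2 * x1) (R := 4 * x1)
      (M := Real.exp (Real.log T ^ (2 * e))) (by positivity) (by linarith) (Real.one_le_exp (by positivity))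
      (fun z hz => good_zeta.an z (by
        have h5 := (Complex.abs_im_le_norm (z - s0)).trans (by simpa [dist_eq_norm] using hz)
        rw [Complex.sub_im, hs0im] at h5
        have := (abs_le.1 h5).1
        linarith [ht.1])) hne
      (fun z hz => q3 z (by
        have h5 : ‖z - s0‖ ≤ 4 * x1 := by simpa [dist_eq_norm] using hz
        have h6 : z - (1 / 2 + t * I) = (z - s0) + (x1 : ℂ) := by
          rw [hs0]; push_cast; ring
        rw [h6]
        refine (norm_add_le _ _).trans ?_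
        rw [Complex.norm_real, Real.norm_eq_abs, abs_of_pos hx0]
        linarith))
      (Zf riemannZeta (t - 4 / Real.log T) (t + 4 / Real.log T))
      (fun z hz => by
        rw [mem_Zf good_zeta hU] at hz
        obtain ⟨z1, z2, z3, z4, z5⟩ := hz
        have h5 := hG1 z z5 z1 z2 (by
          rw [abs_le, one_mul]
          have : 4 / Real.log T ≤ 1 := by rw [div_le_one hL0]; exact hL
          constructor <;> linarith)
        rw [Metric.mem_closedBall, dist_eq_norm]
        refine (Complex.norm_le_abs_re_add_abs_im _).trans ?_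
        rw [Complex.sub_re, Complex.sub_im, hs0re, hs0im]
        have h6 : |z.im - t| ≤ x1 / 4 := by
          rw [abs_le]; constructor <;> linarith
        have h7 : |z.re - (1 / 2 + x1)| ≤ x1 / 4 + x1 := by
          have h8 := abs_le.1 (h5.trans hDx)
          rw [abs_le]; constructor <;> linarith [h8.1, h8.2]
        linarith)
    refine hJ.trans ?_
    have hlog2 : Real.log (4 * x1 / (2 * x1)) = Real.log 2 := by
      congr 1; field_simp; norm_num
    rw [hlog2, Real.log_div (Real.exp_pos _).ne' (norm_pos_iff.2 hne).ne', Real.log_exp]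
    have hl2 : (1:ℝ) / 2 < Real.log 2 := by have := Real.log_two_gt_d9; linarith
    rw [div_le_iff₀ (by linarith)]
    have e2 : Real.log T ^ (2 * e) = Real.log T ^ e * Real.log T ^ e := by
      rw [← Real.rpow_add hL0]; congr 1; ring
    have e4 : Real.log T ^ (4 * e) = (Real.log T ^ e * Real.log T ^ e) * (Real.log T ^ e * Real.log T ^ e) := by
      rw [← Real.rpow_add hL0, ← Real.rpow_add hL0]; congr 1; ring
    rw [e2, e4]
    set q := Real.log T ^ e with hq
    have hq16 : 16 ≤ q := g6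
    have f1 : q * q - Real.log ‖riemannZeta s0‖ ≤ q * q + q + 1 := by linarith
    have f2 : q * q + q + 1 ≤ 3 * (q * q) := by nlinarith
    have f3 : 3 * (q * q) ≤ (q * q) * (q * q) * (1 / 2) := by
      have : 6 ≤ q * q := by nlinarith
      nlinarith [mul_nonneg (mul_self_nonneg q) (by linarith : 0 ≤ q * q - 6)]
    have f4 : (q * q) * (q * q) * (1 / 2) ≤ (q * q) * (q * q) * Real.log 2 :=
      mul_le_mul_of_nonneg_left hl2.le (by positivity)
    linarith

/-- **short intervals rarely contain many zeros** -/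
theorem t_NZM (hSTRIP : P_STRIP) (hZ1 : P_Z1) : P_NZM := by
  intro e A' he hA'
  set e1 : ℝ := min (e / 8) (1 / 2) with he1
  have he10 : 0 < e1 := by positivity
  have he1a : e1 ≤ e / 8 := min_le_left _ _
  have he1b : e1 ≤ 1 / 2 := min_le_right _ _
  have hb := nz_block hSTRIP hZ1 he10 he1b (show 0 < A' + 1 by linarith)
  have hlog := Real.tendsto_log_atTop
  have hpe : Tendsto (fun T : ℝ => Real.log T ^ (e / 2)) atTop atTop :=
    (tendsto_rpow_atTop (by positivity)).comp hlog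
  have t1 : Tendsto (fun T : ℝ => 9 / 20 * T) atTop atTop := tendsto_id.const_mul_atTop (by norm_num)
  have t2 : Tendsto (fun T : ℝ => 4 / 5 * T) atTop atTop := tendsto_id.const_mul_atTop (by norm_num)
  have t3 : Tendsto (fun T : ℝ => 31 / 20 * T) atTop atTop := tendsto_id.const_mul_atTop (by norm_num)
  have hlogT := Real.isLittleO_log_id_atTop.bound (show (0:ℝ) < 1 / 1000 by norm_num)
  filter_upwards [t1.eventually hb, t2.eventually hb, t3.eventually hb, hpe.eventually_ge_atTop (2 ^ (e / 2)),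
    hlog.eventually_ge_atTop (6 * 2 ^ (A' + 1)), hlog.eventually_ge_atTop 10,
    eventually_ge_atTop (1000:ℝ), hlogT] with T b1 b2 b3 hp hLA hL hT hlT
  obtain ⟨E1, m1, s1, v1, p1⟩ := b1
  obtain ⟨E2, m2, s2, v2, p2⟩ := b2
  obtain ⟨E3, m3, s3, v3, p3⟩ := b3
  have hT0 : 0 < T := by linarith
  have hL0 : 0 < Real.log T := by linarith
  have hLT : Real.log T ≤ T / 1000 := by
    simp only [id, Real.norm_eq_abs] at hlT
    rw [abs_of_pos hL0, abs_of_pos (by linarith)] at hlT
    linarith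
  -- facts about a block
  have key : ∀ a : ℝ, 9 / 20 ≤ a → a ≤ 31 / 20 → Real.log T / 2 ≤ Real.log (a * T) ∧
      Real.log (a * T) ≤ Real.log T + 1 ∧ Real.log (a * T) ^ (4 * e1) ≤ Real.log T ^ e ∧
      a * T / Real.log (a * T) ^ (A' + 1) ≤ 2 * 2 ^ (A' + 1) * (T / Real.log T ^ (A' + 1)) := by
    intro a ha1 ha2
    have ha0 : 0 < a := by linarith
    have hl : Real.log (a * T) = Real.log a + Real.log T := Real.log_mul ha0.ne' hT0.ne'
    have hla : Real.log a ≤ 1 := by
      have := Real.log_le_sub_one_of_pos ha0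
      linarith
    have hla2 : -2 ≤ Real.log a := by
      have h5 : Real.exp (-2) ≤ a := by
        have h6 : Real.exp 2 * Real.exp (-2) = 1 := by rw [← Real.exp_add]; simp
        have h7 : (3:ℝ) ≤ Real.exp 2 := by have := Real.add_one_le_exp (2:ℝ); linarith
        have h8 := Real.exp_pos (-2)
        nlinarith
      calc (-2:ℝ) = Real.log (Real.exp (-2)) := (Real.log_exp _).symm
        _ ≤ _ := Real.log_le_log (Real.exp_pos _) h5
    have r1 : Real.log T / 2 ≤ Real.log (a * T) := by rw [hl]; linarith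
    have r2 : Real.log (a * T) ≤ Real.log T + 1 := by rw [hl]; linarith
    have hLa0 : 0 < Real.log (a * T) := by linarith
    refine ⟨r1, r2, ?_, ?_⟩
    · calc Real.log (a * T) ^ (4 * e1) ≤ Real.log (a * T) ^ (e / 2) :=
            Real.rpow_le_rpow_of_exponent_le (by linarith) (by linarith)
        _ ≤ (2 * Real.log T) ^ (e / 2) := Real.rpow_le_rpow hLa0.le (by linarith) (by positivity)
        _ = 2 ^ (e / 2) * Real.log T ^ (e / 2) := Real.mul_rpow (by norm_num) hL0.le
        _ ≤ Real.log T ^ (e / 2) * Real.log T ^ (e / 2) := mul_le_mul_of_nonneg_right hp (by positivity)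
        _ = Real.log T ^ e := by rw [← Real.rpow_add hL0]; congr 1; ring
    · have h5 : Real.log T ^ (A' + 1) ≤ 2 ^ (A' + 1) * Real.log (a * T) ^ (A' + 1) := by
        rw [← Real.mul_rpow (by norm_num) hLa0.le]
        exact Real.rpow_le_rpow hL0.le (by linarith) (by linarith)
      have h6 : 0 < Real.log (a * T) ^ (A' + 1) := Real.rpow_pos_of_pos hLa0 _
      have h7 : 0 < Real.log T ^ (A' + 1) := Real.rpow_pos_of_pos hL0 _
      rw [mul_div_assoc' , div_le_div_iff₀ h6 h7]
      calc a * T * Real.log T ^ (A' + 1) ≤ 2 * T * (2 ^ (A' + 1) * Real.log (a * T) ^ (A' + 1)) :=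
            mul_le_mul (by nlinarith) h5 h7.le (by positivity)
        _ = _ := by ring
  obtain ⟨k11, k12, k13, k14⟩ := key (9 / 20) le_rfl (by norm_num)
  obtain ⟨k21, k22, k23, k24⟩ := key (4 / 5) (by norm_num) (by norm_num)
  obtain ⟨k31, k32, k33, k34⟩ := key (31 / 20) (by norm_num) le_rfl
  refine ⟨(E1 ∪ (E2 ∪ E3)) ∩ Set.Icc (T / 2) (3 * T), (m1.union (m2.union m3)).inter measurableSet_Icc,
    Set.inter_subset_right, ?_, ?_⟩
  · have hfin : volume (E1 ∪ (E2 ∪ E3)) ≠ ⊤ := by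
      refine ne_top_of_le_ne_top (b := volume (Set.Icc 0 (4 * T))) (measure_Icc_lt_top).ne (measure_mono ?_)
      refine Set.union_subset (s1.trans (Set.Icc_subset_Icc (by linarith) (by linarith)))
        (Set.union_subset (s2.trans (Set.Icc_subset_Icc (by linarith) (by linarith)))
          (s3.trans (Set.Icc_subset_Icc (by linarith) (by linarith))))
    have h1 : volume.real ((E1 ∪ (E2 ∪ E3)) ∩ Set.Icc (T / 2) (3 * T)) ≤ volume.real (E1 ∪ (E2 ∪ E3)) :=
      measureReal_mono Set.inter_subset_left hfin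
    have h2 := measureReal_union_le (μ := volume) E1 (E2 ∪ E3)
    have h3 := measureReal_union_le (μ := volume) E2 E3
    have h4 : 6 * 2 ^ (A' + 1) * (T / Real.log T ^ (A' + 1)) ≤ T / Real.log T ^ A' := by
      have hLA0 : 0 < Real.log T ^ A' := Real.rpow_pos_of_pos hL0 _
      rw [Real.rpow_add hL0 A' 1, Real.rpow_one, mul_div_assoc', div_le_div_iff₀ (by positivity) hLA0]
      have : 6 * 2 ^ (A' + 1) * (T * Real.log T ^ A') ≤ Real.log T * (T * Real.log T ^ A') :=
        mul_le_mul_of_nonneg_right hLA (by positivity)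
      linarith
    linarith
  · intro t ht htE
    have hn : t ∉ E1 ∧ t ∉ E2 ∧ t ∉ E3 := by
      refine ⟨fun h => htE ⟨Or.inl h, ht⟩, fun h => htE ⟨Or.inr (Or.inl h), ht⟩, fun h => htE ⟨Or.inr (Or.inr h), ht⟩⟩
    have fin : ∀ a : ℝ, Real.log (a * T) ≤ Real.log T + 1 → Real.log T / 2 ≤ Real.log (a * T) →
        (NN riemannZeta (t - 3 / Real.log T) (t + 3 / Real.log T) : ℝ) ≤
        (NN riemannZeta (t - 4 / Real.log (a * T)) (t + 4 / Real.log (a * T)) : ℝ) := by
      intro a h1 h2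
      have hLa0 : 0 < Real.log (a * T) := by linarith
      have h3 : 3 / Real.log T ≤ 4 / Real.log (a * T) := by
        rw [div_le_div_iff₀ hL0 hLa0]
        linarith
      have h4 : 4 / Real.log (a * T) ≤ 1 := by
        rw [div_le_one hLa0]; linarith
      exact NN_mono (by linarith [ht.1]) (by linarith) (by linarith)
    rcases le_total t (17 / 20 * T) with c1 | c1
    · have := p1 t ⟨by linarith [ht.1], by linarith⟩ hn.1
      exact (fin _ k12 k11).trans (this.trans k13)
    · rcases le_total t (157 / 100 * T) with c2 | c2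
      · have := p2 t ⟨by linarith, by linarith⟩ hn.2.1
        exact (fin _ k22 k21).trans (this.trans k23)
      · have := p3 t ⟨by linarith, by linarith [ht.2]⟩ hn.2.2
        exact (fin _ k32 k31).trans (this.trans k33)

end

end Pool.Agent.J6H67.LX
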