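import Pool.Agent.Y568.UP.STRIP
import Pool.Agent.Y732.UP.SUBA
import Pool.Agent.Y745.LD.DefsB

set_option autoImplicit false

/-! A crude upper bound for zeta near the critical line, for most heights. -/

namespace Pool.Agent.J6H67.LX

open Filter Topology MeasureTheory Complex Pool.Agent.Y745.UP Pool.Agent.Y568.UP

noncomputable section

/-- the integral of a function over the square of half side `ρ` around the point `t` of the line -/
def Bx (F : ℝ → ℝ → ℝ) (ρ t : ℝ) : ℝ := ∫ u in (-ρ)..ρ, ∫ v in (-ρ)..ρ, F u (t + v)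

lemma Bx_cont {F : ℝ → ℝ → ℝ} (hF : Continuous F.uncurry) (ρ : ℝ) : Continuous (Bx F ρ) := by
  unfold Bx
  apply intervalIntegral.continuous_parametric_intervalIntegral_of_continuous'
    (f := fun (t u : ℝ) => ∫ v in (-ρ)..ρ, F u (t + v))
  apply intervalIntegral.continuous_parametric_intervalIntegral_of_continuous'
    (f := fun (p : ℝ × ℝ) (v : ℝ) => F p.2 (p.1 + v))
  exact hF.comp (by fun_prop : Continuous fun q : (ℝ × ℝ) × ℝ => (q.1.2, q.1.1 + q.2))

lemma Bx_nonneg {F : ℝ → ℝ → ℝ} (h0 : ∀ x t, 0 ≤ F x t) {ρ : ℝ} (hρ : 0 ≤ ρ) (t : ℝ) : 0 ≤ Bx F ρ t := by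
  unfold Bx
  exact intervalIntegral.integral_nonneg (by linarith) fun u _ =>
    intervalIntegral.integral_nonneg (by linarith) fun v _ => h0 _ _

/-- smaller squares -/
lemma Bx_sub {F : ℝ → ℝ → ℝ} (hF : Continuous F.uncurry) (h0 : ∀ x t, 0 ≤ F x t) {R x0 y0 t : ℝ} (hR : 0 < R)
    (hx : |x0| ≤ R) (hy : |y0| ≤ R) :
    ∫ u in (-R)..R, ∫ v in (-R)..R, F (x0 + u) (t + y0 + v) ≤ Bx F (2 * R) t := by
  obtain ⟨hx1, hx2⟩ := abs_le.1 hx
  obtain ⟨hy1, hy2⟩ := abs_le.1 hy
  have e1 : ∀ u : ℝ, ∫ v in (-R)..R, F (x0 + u) (t + y0 + v) =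
      ∫ v in (y0 - R)..(y0 + R), F (x0 + u) (t + v) := by
    intro u
    have := intervalIntegral.integral_comp_add_left (a := -R) (b := R) (fun v => F (x0 + u) (t + v)) y0
    rw [show y0 - R = y0 + -R by ring, ← this]
    refine intervalIntegral.integral_congr fun v _ => ?_
    show F (x0 + u) (t + y0 + v) = F (x0 + u) (t + (y0 + v))
    rw [add_assoc]
  simp_rw [e1]
  have e2 := intervalIntegral.integral_comp_add_left (a := -R) (b := R)
    (fun u => ∫ v in (y0 - R)..(y0 + R), F u (t + v)) x0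
  rw [e2]
  have hc1 : Continuous (fun u : ℝ => ∫ v in (y0 - R)..(y0 + R), F u (t + v)) := by
    apply intervalIntegral.continuous_parametric_intervalIntegral_of_continuous'
      (f := fun (u v : ℝ) => F u (t + v))
    exact hF.comp (by fun_prop : Continuous fun q : ℝ × ℝ => (q.1, t + q.2))
  have hc2 : Continuous (fun u : ℝ => ∫ v in (-(2 * R))..(2 * R), F u (t + v)) := by
    apply intervalIntegral.continuous_parametric_intervalIntegral_of_continuous'
      (f := fun (u v : ℝ) => F u (t + v))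
    exact hF.comp (by fun_prop : Continuous fun q : ℝ × ℝ => (q.1, t + q.2))
  have hin : ∀ u : ℝ, ∫ v in (y0 - R)..(y0 + R), F u (t + v) ≤ ∫ v in (-(2 * R))..(2 * R), F u (t + v) := by
    intro u
    have hcu : Continuous fun v : ℝ => F u (t + v) :=
      hF.comp (by fun_prop : Continuous fun v : ℝ => (u, t + v))
    exact intervalIntegral.integral_mono_interval (by linarith) (by linarith) (by linarith)
      (Eventually.of_forall fun v => h0 _ _) (hcu.intervalIntegrable _ _)
  calc ∫ u in (x0 + -R)..(x0 + R), ∫ v in (y0 - R)..(y0 + R), F u (t + v)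
      ≤ ∫ u in (x0 + -R)..(x0 + R), ∫ v in (-(2 * R))..(2 * R), F u (t + v) :=
        intervalIntegral.integral_mono_on (by linarith) (hc1.intervalIntegrable _ _)
          (hc2.intervalIntegrable _ _) fun u _ => hin u
    _ ≤ ∫ u in (-(2 * R))..(2 * R), ∫ v in (-(2 * R))..(2 * R), F u (t + v) := by
        refine intervalIntegral.integral_mono_interval (by linarith) (by linarith) (by linarith)
          (Eventually.of_forall fun u => ?_) (hc2.intervalIntegrable _ _)
        exact intervalIntegral.integral_nonneg (by linarith) fun v _ => h0 _ _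
    _ = Bx F (2 * R) t := rfl

/-- the mean of the integrals over the squares -/
lemma Bx_mean {F : ℝ → ℝ → ℝ} (hF : Continuous F.uncurry) (h0 : ∀ x t, 0 ≤ F x t) {ρ a b Q : ℝ} (hρ : 0 ≤ ρ)
    (hab : a ≤ b) (hQ : ∀ x, |x| ≤ ρ → MI F x (a - ρ) (b + ρ) ≤ Q) :
    ∫ t in a..b, Bx F ρ t ≤ 4 * ρ ^ 2 * Q := by
  have hc2 : Continuous (fun p : ℝ × ℝ => ∫ v in (-ρ)..ρ, F p.2 (p.1 + v)) := by
    apply intervalIntegral.continuous_parametric_intervalIntegral_of_continuous'
      (f := fun (p : ℝ × ℝ) (v : ℝ) => F p.2 (p.1 + v))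
    exact hF.comp (by fun_prop : Continuous fun q : (ℝ × ℝ) × ℝ => (q.1.2, q.1.1 + q.2))
  have e1 : ∫ t in a..b, Bx F ρ t = ∫ u in (-ρ)..ρ, ∫ t in a..b, ∫ v in (-ρ)..ρ, F u (t + v) :=
    swap_cont (F := fun t u => ∫ v in (-ρ)..ρ, F u (t + v)) hc2 _ _ _ _
  have hstep : ∀ u, |u| ≤ ρ → ∫ t in a..b, ∫ v in (-ρ)..ρ, F u (t + v) ≤ 2 * ρ * Q := by
    intro u hu
    have h3 : ∫ t in a..b, ∫ v in (-ρ)..ρ, F u (t + v) = ∫ v in (-ρ)..ρ, ∫ t in a..b, F u (t + v) :=
      swap_cont (F := fun t v => F u (t + v))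
        (hF.comp (by fun_prop : Continuous fun q : ℝ × ℝ => (u, q.1 + q.2))) _ _ _ _
    rw [h3]
    have hc : Continuous fun v : ℝ => ∫ t in a..b, F u (t + v) := by
      apply intervalIntegral.continuous_parametric_intervalIntegral_of_continuous'
        (f := fun (v t : ℝ) => F u (t + v))
      exact hF.comp (by fun_prop : Continuous fun q : ℝ × ℝ => (u, q.2 + q.1))
    calc ∫ v in (-ρ)..ρ, ∫ t in a..b, F u (t + v) ≤ ∫ v in (-ρ)..ρ, Q := by
          refine intervalIntegral.integral_mono_on (by linarith) (hc.intervalIntegrable _ _)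
            (continuous_const.intervalIntegrable _ _) fun v hv => ?_
          rw [intervalIntegral.integral_comp_add_right (fun s => F u s)]
          have : ∫ s in (a + v)..(b + v), F u s = MI F u (a + v) (b + v) := rfl
          rw [this]
          exact (MI_mono hF h0 (by linarith [hv.1]) (by linarith) (by linarith [hv.2])).trans (hQ u hu)
      _ = 2 * ρ * Q := by rw [intervalIntegral.integral_const, smul_eq_mul]; ring
  have hc : Continuous fun u : ℝ => ∫ t in a..b, ∫ v in (-ρ)..ρ, F u (t + v) := by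
    apply intervalIntegral.continuous_parametric_intervalIntegral_of_continuous'
      (f := fun (u t : ℝ) => ∫ v in (-ρ)..ρ, F u (t + v))
    exact hc2.comp (by fun_prop : Continuous fun q : ℝ × ℝ => (q.2, q.1))
  rw [e1]
  calc ∫ u in (-ρ)..ρ, ∫ t in a..b, ∫ v in (-ρ)..ρ, F u (t + v) ≤ ∫ u in (-ρ)..ρ, 2 * ρ * Q :=
        intervalIntegral.integral_mono_on (by linarith) (hc.intervalIntegrable _ _)
          (continuous_const.intervalIntegrable _ _) fun u hu => hstep u (abs_le.2 ⟨hu.1, hu.2⟩)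
    _ = 4 * ρ ^ 2 * Q := by rw [intervalIntegral.integral_const, smul_eq_mul]; ring

/-- Chebyshev -/
lemma cheb {Φ : ℝ → ℝ} (hΦ : Continuous Φ) (h0 : ∀ t, 0 ≤ Φ t) {a b c M : ℝ} (hab : a ≤ b) (hc : 0 < c)
    (hM : ∫ t in a..b, Φ t ≤ M) :
    MeasurableSet (Set.Icc a b ∩ {t | c < Φ t}) ∧ volume.real (Set.Icc a b ∩ {t | c < Φ t}) ≤ M / c := by
  have hm : MeasurableSet (Set.Icc a b ∩ {t | c < Φ t}) :=
    measurableSet_Icc.inter (measurableSet_lt measurable_const hΦ.measurable)
  refine ⟨hm, ?_⟩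
  rw [le_div_iff₀ hc]
  have hi : IntegrableOn Φ (Set.Icc a b) := hΦ.continuousOn.integrableOn_compact isCompact_Icc
  have hfin : volume (Set.Icc a b ∩ {t | c < Φ t}) ≠ ⊤ :=
    ne_top_of_le_ne_top (by simp) (measure_mono Set.inter_subset_left)
  calc volume.real (Set.Icc a b ∩ {t | c < Φ t}) * c = ∫ _t in Set.Icc a b ∩ {t | c < Φ t}, c := by
        rw [setIntegral_const, smul_eq_mul]
    _ ≤ ∫ t in Set.Icc a b ∩ {t | c < Φ t}, Φ t :=
        setIntegral_mono_on (integrableOn_const hfin) (hi.mono_set Set.inter_subset_left) hm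
          fun t ht => le_of_lt ht.2
    _ ≤ ∫ t in Set.Icc a b, Φ t :=
        setIntegral_mono_set hi (Eventually.of_forall h0) (Eventually.of_forall Set.inter_subset_left)
    _ = ∫ t in a..b, Φ t := by
        rw [integral_Icc_eq_integral_Ioc, ← intervalIntegral.integral_of_le hab]
    _ ≤ M := hM

/-- **zeta near the critical line, for most heights** -/
theorem t_ZUP (hSTRIP : P_STRIP) : Pool.Agent.Y745.LD.P_ZUP := by
  intro A' hA'
  obtain ⟨C, hC, hS⟩ := hSTRIP 1 2 one_pos (by norm_num) (by norm_num)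
  refine ⟨(A' + 2) / 2, by positivity, ?_⟩
  have hlog := Real.tendsto_log_atTop
  filter_upwards [hS, hlog.eventually_ge_atTop (16 * C + 2), eventually_ge_atTop 16] with T hS hL hT
  set L := Real.log T with hLd
  have hL0 : 0 < L := by linarith
  have hL1 : 1 ≤ L := by linarith
  have hT0 : 0 < T := by linarith
  set R : ℝ := 1 / L with hR
  have hR0 : 0 < R := by positivity
  have hR1 : R ≤ 1 / 2 := by
    rw [hR, div_le_div_iff₀ hL0 (by norm_num)]
    linarith
  have hβ : (0:ℝ) < 2 * 1 := by norm_num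
  set F := GG (2 * 1) with hF
  have hFc : Continuous F.uncurry := GG_cont hβ
  have hF0 : ∀ x t, 0 ≤ F x t := fun x t => GG_nonneg _ x t
  have hQ : ∀ x, |x| ≤ 2 * R → MI F x (T - 2 * R) (2 * T + 2 * R) ≤ C * (T * L) := by
    intro x hx
    have h1 := hS x (by rw [hR] at hx; calc |x| ≤ 2 * (1 / L) := hx
      _ = 2 / L := by ring)
    rw [one_pow, Real.rpow_one, ← MI_GG (2 * 1) x (by linarith) (by linarith)] at h1
    exact (MI_mono hFc hF0 (by linarith) (by linarith) (by linarith)).trans h1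
  have hmean := Bx_mean hFc hF0 (by positivity : 0 ≤ 2 * R) (by linarith : T ≤ 2 * T) hQ
  have hB0 : 0 < L ^ (A' + 2) := Real.rpow_pos_of_pos hL0 _
  obtain ⟨hm, hv⟩ := cheb (Bx_cont hFc (2 * R)) (Bx_nonneg hF0 (by positivity)) (by linarith : T ≤ 2 * T)
    (c := R ^ 2 * L ^ (A' + 2)) (by positivity) hmean
  refine ⟨Set.Icc T (2 * T) ∩ {t | R ^ 2 * L ^ (A' + 2) < Bx F (2 * R) t}, hm, Set.inter_subset_left, ?_, ?_⟩
  · refine hv.trans ?_
    have e1 : 4 * (2 * R) ^ 2 * (C * (T * L)) / (R ^ 2 * L ^ (A' + 2)) = 16 * C * (T * L) / L ^ (A' + 2) := by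
      field_simp
      ring
    have e2 : L ^ (A' + 2) = L ^ A' * (L * L) := by
      rw [Real.rpow_add hL0]
      congr 1
      rw [show (2:ℝ) = ((2:ℕ):ℝ) by norm_num, Real.rpow_natCast]; ring
    rw [e1, e2]
    have hLA : 0 < L ^ A' := Real.rpow_pos_of_pos hL0 _
    rw [div_le_div_iff₀ (by positivity) hLA]
    have h2 : 16 * C * (T * L) ≤ L * (T * L) := mul_le_mul_of_nonneg_right (by linarith) (by positivity)
    calc 16 * C * (T * L) * L ^ A' ≤ L * (T * L) * L ^ A' := mul_le_mul_of_nonneg_right h2 hLA.le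
      _ = T * (L ^ A' * (L * L)) := by ring
  · intro t ht htE z hz
    have hΦ : Bx F (2 * R) t ≤ R ^ 2 * L ^ (A' + 2) := by
      by_contra hcon
      push Not at hcon
      exact htE ⟨⟨by linarith [ht.1], by linarith [ht.2]⟩, hcon⟩
    set x0 := z.re - 1 / 2 with hx0
    set y0 := z.im - t with hy0
    have e0 : z - (1 / 2 + t * I) = ⟨x0, y0⟩ := by
      apply Complex.ext <;> simp [hx0, hy0]
    have hx : |x0| ≤ R := by
      have := Complex.abs_re_le_norm (z - (1 / 2 + t * I))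
      rw [e0] at this hz
      exact this.trans hz
    have hy : |y0| ≤ R := by
      have := Complex.abs_im_le_norm (z - (1 / 2 + t * I))
      rw [e0] at this hz
      exact this.trans hz
    have hyl := (abs_le.1 hy).1
    have h1 := GG_sub Pool.Agent.Y732.UP.t_SUBA (β := 2 * 1) (R := R) (x := x0) (t := t + y0) hβ hR0 (by linarith [ht.1])
    have h2 := Bx_sub hFc hF0 (t := t) hR0 hx hy
    have ez : (((1 / 2 + x0 : ℝ) : ℂ) + ((t + y0 : ℝ) : ℂ) * I) = z := by
      apply Complex.ext <;> simp [hx0, hy0]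
    rw [GG_eq _ _ (by linarith [ht.1]), ez] at h1
    have h3 : ‖riemannZeta z‖ ^ (2 * 1 : ℝ) ≤ L ^ (A' + 2) := by
      refine h1.trans ?_
      have hpi := Real.pi_gt_three
      calc 1 / (Real.pi * R ^ 2) * ∫ u in (-R)..R, ∫ v in (-R)..R, GG (2 * 1) (x0 + u) (t + y0 + v)
          ≤ 1 / (Real.pi * R ^ 2) * (R ^ 2 * L ^ (A' + 2)) :=
            mul_le_mul_of_nonneg_left (h2.trans hΦ) (by positivity)
        _ = 1 / Real.pi * L ^ (A' + 2) := by field_simp
        _ ≤ 1 * L ^ (A' + 2) := by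
            refine mul_le_mul_of_nonneg_right ?_ hB0.le
            rw [div_le_one Real.pi_pos]; linarith
        _ = _ := one_mul _
    have h4 : L ^ (A' + 2) = (L ^ ((A' + 2) / 2)) ^ (2 * 1 : ℝ) := by
      rw [← Real.rpow_mul hL0.le]
      congr 1; ring
    rw [h4] at h3
    exact (Real.rpow_le_rpow_iff (norm_nonneg _) (by positivity) hβ).1 h3

end

end Pool.Agent.J6H67.LX
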