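import Pool.Agent.J6H67.LX.G1M
import Pool.Agent.J6H67.LX.OUT
import Pool.Agent.J6H67.LX.ZUP
import Pool.Agent.Y840.SW.MVB
import Pool.Agent.Y833.SW.Di
import Pool.Agent.Y655.SW.Trk
import Pool.Agent.Y655.SW.Har
import Pool.Agent.Y627.SW.MN
import Pool.Agent.Y931.LD.VM1
import Pool.Agent.Y447.LD.VMR
import Pool.Agent.Y665.LD.VMS
import Pool.Agent.Y363.LD.PW
import Pool.Agent.Y949.LD.G2M
import Pool.Agent.Y786.LD.KER2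
import Pool.Agent.Y290.LD.DFU
import Pool.Agent.Y811.LD.VDQ
import Pool.Agent.Y210.LD.EFU
import Pool.Agent.Y732.LD.VSM
import Pool.Agent.Y745.LD.CNT2
import Pool.Agent.Y871.LD.COST
import Pool.Agent.Y179.LD.Z1
import Pool.Agent.Y363.LD.ZL2
import Pool.Agent.Y674.LD.Z3
import Pool.Agent.Y448.LD.LOW
import Pool.Agent.Y954.LD.DERV
import Pool.Agent.Y288.EW.SEPC
import Pool.Agent.Y745.LD.VB5
import Pool.Agent.Y745.LD.Asm2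
import Pool.Agent.Y745.EW.Blk
import Pool.Agent.Y745.EW.Asm
import Pool.Agent.Y732.UP.SUBA
import Pool.Agent.Y568.UP.STRIP
import Pool.Agent.Y419.UP.UPB
import Pool.Agent.J6H67.LX.NZM

set_option autoImplicit false

/-! Assembly of the start project LD/EW. -/

namespace Pool.Agent.J6H67.LX

open Filter Topology MeasureTheory Complex H370 Pool.Agent.Y745.SW Pool.Agent.Y745.LD
open scoped ComplexConjugate

noncomputable section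

lemma hMVB : P_MVB := Pool.Agent.Y840.SW.t_MVB
lemma hVM1 : P_VM1 := Pool.Agent.Y931.LD.t_VM1 hMVB
lemma hVMR : P_VMR := Pool.Agent.Y447.LD.t_VMR hMVB
lemma hVMS : P_VMS := Pool.Agent.Y665.LD.t_VMS hMVB hVM1
lemma hVMT : P_VMT := Pool.Agent.Y665.LD.t_VMT hMVB hVM1
lemma hPW : P_PW := Pool.Agent.Y363.LD.t_PW
lemma hG2M : P_G2M := Pool.Agent.Y949.LD.t_G2M0
lemma hVDQ : P_VDQ := Pool.Agent.Y811.LD.t_VDQ hVMR
lemma hVSM : P_VSM := Pool.Agent.Y732.LD.t_VSM hVMR hVMS Pool.Agent.Y210.LD.t_EFU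
lemma hCNT2 : P_CNT2 := t_CNT2 hVSM
lemma hZL2 : P_ZL2 := Pool.Agent.Y363.LD.t_ZL2 hMVB hVM1 hVMR hVMS Pool.Agent.Y179.LD.t_Z1
lemma hSTRIP : Pool.Agent.Y745.UP.P_STRIP := Pool.Agent.Y568.UP.t_STRIP Pool.Agent.Y732.UP.t_SUBA t_OUT
lemma hZUP : P_ZUP := t_ZUP hSTRIP
lemma hNZM : Pool.Agent.Y745.UP.P_NZM := t_NZM hSTRIP Pool.Agent.Y179.LD.t_Z1
lemma hUPB : Pool.Agent.Y745.UP.P_UPB :=
  Pool.Agent.Y419.UP.t_UPB Pool.Agent.Y732.UP.t_SUBA hSTRIP hNZM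
lemma hLOW : P_LOW := Pool.Agent.Y448.LD.t_LOW hVM1 hVMT hPW hG2M t_G1M hZL2 Pool.Agent.Y674.LD.t_Z3
lemma hDERV : P_DERV :=
  Pool.Agent.Y954.LD.t_DERV hVM1 hVMT hPW hLOW hZUP Pool.Agent.Y655.SW.t_HAR
lemma hVBLK : P_VBLK := vblk Pool.Agent.Y833.SW.t_DI Pool.Agent.Y655.SW.t_TRK Pool.Agent.Y627.SW.t_MN H370.good_zeta
  Pool.Agent.Y786.LD.t_KER2 Pool.Agent.Y290.LD.t_DFU hVDQ Pool.Agent.Y210.LD.t_EFU hVSM hCNT2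
  Pool.Agent.Y871.LD.t_COST
lemma hVBX : Pool.Agent.Y745.EW.P_VBX := Pool.Agent.Y745.EW.vblk2 Pool.Agent.Y833.SW.t_DI
  Pool.Agent.Y655.SW.t_TRK Pool.Agent.Y627.SW.t_MN H370.good_zeta
  Pool.Agent.Y786.LD.t_KER2 Pool.Agent.Y290.LD.t_DFU hVDQ Pool.Agent.Y210.LD.t_EFU hVSM hCNT2
  Pool.Agent.Y871.LD.t_COST

/-- simple zeros with a derivative of exceptional size -/
theorem ld_main : ∃ δ : ℝ, 0 < δ ∧ δ ≤ 1 / 10 ∧ ∀ κ ε : ℝ, 0 < ε → ∀ᶠ T : ℝ in atTop,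
    ∃ U1 U2 : ℝ, T ≤ U1 ∧ U1 ≤ T + 1 ∧ 2 * T - 1 ≤ U2 ∧ U2 ≤ 2 * T ∧
    T * Real.log T ^ (1 - κ ^ 2 - ε) ≤
      (((isoS U1 U2 (δ / Real.log T)).filter (fun s => T + 2 ≤ s.im ∧ s.im ≤ 2 * T - 2 ∧
        |Real.log ‖deriv riemannZeta s‖ - (1 + κ) * LL T| ≤ ε * LL T)).card : ℝ) :=
  ld_count hVBLK hDERV t_G1M hG2M hVM1 hVMT hPW

/-- many simple zeros near the exceptional values of zeta -/
theorem ew_main : ∀ ε : ℝ, 0 < ε → ε ≤ 1 / 2 → ∃ δ : ℝ, 0 < δ ∧ δ ≤ 1 / 10 ∧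
    ∀ κ : ℝ, ∃ e : ℝ, 0 < e ∧ ∀ᶠ T : ℝ in atTop, ∃ U1 U2 r : ℝ, ∃ E : Set ℝ,
    T ≤ U1 ∧ U1 ≤ T + 1 ∧ 2 * T - 1 ≤ U2 ∧ U2 ≤ 2 * T ∧
    Real.log T ^ (e - 1) ≤ r ∧ r ≤ Real.log T ^ (ε - 1) ∧ MeasurableSet E ∧
    E ⊆ Set.Icc (T + 6 * Real.log T) (2 * T - 6 * Real.log T) ∧
    T * Real.log T ^ (-κ ^ 2 - ε) ≤ volume.real E ∧ ∀ t ∈ E,
      |Real.log ‖riemannZeta (1 / 2 + t * I)‖ - κ * LL T| ≤ ε * LL T ∧
      (2 - cMTinv - ε) * (r * Real.log T / Real.pi) ≤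
        ((((isoS U1 U2 (δ / Real.log T)).filter (fun s =>
          |Real.log ‖deriv riemannZeta s‖ - (1 + κ) * LL T| ≤ ε * LL T)).filter
            (fun s => |s.im - t| ≤ r)).card : ℝ) ∧
      nz U1 U2 (t - r) (t + r) ≤
        ((((isoS U1 U2 (δ / Real.log T)).filter (fun s =>
          |Real.log ‖deriv riemannZeta s‖ - (1 + κ) * LL T| ≤ ε * LL T)).filter
            (fun s => |s.im - t| ≤ r)).card : ℝ) +
        (1 - (2 - cMTinv - ε)) * (r * Real.log T / Real.pi) :=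
  Pool.Agent.Y745.EW.ew_core hVBX hDERV hLOW t_G1M hG2M hVM1 hVMT hPW Pool.Agent.Y288.EW.t_SEPC

end

end Pool.Agent.J6H67.LX
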